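import Mathlib

/-!
Iterates of the duplication map on the Mordell curves `y ^ 2 = x ^ 3 + k`, as a pair of binary forms in
`X = x ^ 3` and `Y = k`: `x (2 ^ j Q) = x (Q) * f_j (X, Y) / g_j (X, Y)`.
-/

set_option autoImplicit false

namespace Pool.Agent.K7.H71.Hall

section ring

variable {R : Type*} [CommRing R]

/-- the pair `(f_j, g_j)` -/
def fg (X Y : R) : ℕ → R × R
  | 0 => (1, 1)
  | j + 1 => ((fg X Y j).1 * (X * (fg X Y j).1 ^ 3 - 8 * Y * (fg X Y j).2 ^ 3),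
      4 * (fg X Y j).2 * (X * (fg X Y j).1 ^ 3 + Y * (fg X Y j).2 ^ 3))

/-- the degree `(4 ^ j - 1) / 3` -/
def dg : ℕ → ℕ
  | 0 => 0
  | j + 1 => 4 * dg j + 1

lemma fg_zero (X Y : R) : fg X Y 0 = (1, 1) := rfl

lemma fg_succ (X Y : R) (j : ℕ) : fg X Y (j + 1) =
    ((fg X Y j).1 * (X * (fg X Y j).1 ^ 3 - 8 * Y * (fg X Y j).2 ^ 3),
      4 * (fg X Y j).2 * (X * (fg X Y j).1 ^ 3 + Y * (fg X Y j).2 ^ 3)) := rfl

lemma dg_eq (j : ℕ) : 3 * dg j + 1 = 4 ^ j := by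
  induction j with
  | zero => rfl
  | succ j ih => rw [dg, pow_succ, ← ih]; ring

lemma fg_homog (c X Y : R) (j : ℕ) :
    fg (c * X) (c * Y) j = (c ^ dg j * (fg X Y j).1, c ^ dg j * (fg X Y j).2) := by
  induction j with
  | zero => simp [fg, dg]
  | succ j ih =>
    have e : c ^ (4 * dg j + 1) = c * (c ^ dg j) ^ 4 := by rw [pow_succ, pow_mul']; ring
    rw [fg_succ, ih, fg_succ, dg, e]
    ext
    · simp only
      ring
    · simp only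
      ring

lemma fg_map {S : Type*} [CommRing S] (φ : R →+* S) (X Y : R) (j : ℕ) :
    fg (φ X) (φ Y) j = (φ (fg X Y j).1, φ (fg X Y j).2) := by
  induction j with
  | zero => simp [fg]
  | succ j ih =>
    rw [fg_succ, ih, fg_succ]
    ext
    · simp only [map_mul, map_sub, map_pow, map_ofNat]
    · simp only [map_mul, map_add, map_pow, map_ofNat]

lemma f_mod_Y (X Y : R) (j : ℕ) : Y ∣ (fg X Y j).1 - X ^ dg j := by
  induction j with
  | zero => simp [fg, dg]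
  | succ j ih =>
    obtain ⟨u, hu⟩ := ih
    have h1 : (fg X Y j).1 = X ^ dg j + Y * u := by linear_combination hu
    rw [fg_succ, dg]
    simp only
    refine ⟨u * (4 * X ^ (3 * dg j + 1) + 6 * X ^ (2 * dg j + 1) * Y * u +
      4 * X ^ (dg j + 1) * Y ^ 2 * u ^ 2 + X * Y ^ 3 * u ^ 3) - 8 * (fg X Y j).1 * (fg X Y j).2 ^ 3, ?_⟩
    rw [h1]
    ring

lemma g_mod_X (X Y : R) (j : ℕ) : X ∣ (fg X Y j).2 - 4 ^ dg j * Y ^ dg j := by
  induction j with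
  | zero => simp [fg, dg]
  | succ j ih =>
    obtain ⟨u, hu⟩ := ih
    have h1 : (fg X Y j).2 = 4 ^ dg j * Y ^ dg j + X * u := by linear_combination hu
    rw [fg_succ, dg]
    simp only
    refine ⟨4 * (fg X Y j).2 * (fg X Y j).1 ^ 3 +
      4 * Y * u * (4 * (4 ^ dg j * Y ^ dg j) ^ 3 + 6 * (4 ^ dg j * Y ^ dg j) ^ 2 * X * u +
      4 * (4 ^ dg j * Y ^ dg j) * X ^ 2 * u ^ 2 + X ^ 3 * u ^ 3), ?_⟩
    rw [show (4 : R) ^ (4 * dg j + 1) = 4 * (4 ^ dg j) ^ 4 by rw [pow_succ, pow_mul']; ring,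
      show Y ^ (4 * dg j + 1) = Y * (Y ^ dg j) ^ 4 by rw [pow_succ, pow_mul']; ring]
    have h2 : (fg X Y j).2 ^ 4 = (4 ^ dg j * Y ^ dg j + X * u) ^ 4 := by rw [h1]
    linear_combination 4 * Y * h2

end ring

/-- the common divisors of `f_j` and `g_j` at coprime integers are bounded -/
lemma gcd_bound (j : ℕ) : ∃ R : ℤ, 0 < R ∧ ∀ X Y : ℤ, IsCoprime X Y → ∀ d : ℤ,
    d ∣ (fg X Y j).1 → d ∣ (fg X Y j).2 → d ∣ R := by
  induction j with
  | zero => exact ⟨1, one_pos, fun X Y _ d h _ => by simpa [fg] using h⟩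
  | succ j ih =>
    obtain ⟨R, hR0, hR⟩ := ih
    refine ⟨144 * R ^ 7 * (4 ^ dg (j + 1)) ^ 2, by positivity, ?_⟩
    intro X Y hXY d h1 h2
    have k1 := f_mod_Y X Y (j + 1)
    have k2 := g_mod_X X Y (j + 1)
    obtain ⟨f1, hf1⟩ : ∃ f1, f1 = (fg X Y (j + 1)).1 := ⟨_, rfl⟩
    obtain ⟨g1, hg1⟩ : ∃ g1, g1 = (fg X Y (j + 1)).2 := ⟨_, rfl⟩
    rw [← hf1] at h1 k1
    rw [← hg1] at h2 k2
    rw [fg_succ] at hf1 hg1
    simp only at hf1 hg1
    obtain ⟨f, hf⟩ : ∃ f, f = (fg X Y j).1 := ⟨_, rfl⟩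
    obtain ⟨g, hg⟩ : ∃ g, g = (fg X Y j).2 := ⟨_, rfl⟩
    have hR' := hR X Y hXY
    rw [← hf, ← hg] at hf1 hg1 hR'
    -- the combinations
    have a1 : d ∣ 36 * Y * f * g ^ 4 := by
      have : 36 * Y * f * g ^ 4 = f * g1 - 4 * g * f1 := by rw [hf1, hg1]; ring
      rw [this]
      exact dvd_sub (h2.mul_left _) (h1.mul_left _)
    have a2 : d ∣ 36 * X * f ^ 4 * g := by
      have : 36 * X * f ^ 4 * g = 8 * f * g1 + 4 * g * f1 := by rw [hf1, hg1]; ring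
      rw [this]
      exact dvd_add (h2.mul_left _) (h1.mul_left _)
    have a3 : d ∣ 144 * X ^ 2 * Y ^ 2 * f ^ 7 := by
      have : 144 * X ^ 2 * Y ^ 2 * f ^ 7 = 4 * Y ^ 2 * (36 * X * f ^ 3) * f1
          + 4 * Y ^ 2 * (8 * Y * g ^ 2) * (36 * X * f ^ 4 * g) := by rw [hf1]; ring
      rw [this]
      exact dvd_add (h1.mul_left _) (a2.mul_left _)
    have a4 : d ∣ 144 * X ^ 2 * Y ^ 2 * g ^ 7 := by
      have : 144 * X ^ 2 * Y ^ 2 * g ^ 7 = X ^ 2 * (36 * Y * g ^ 3) * g1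
          - X ^ 2 * (4 * X * f ^ 2) * (36 * Y * f * g ^ 4) := by rw [hg1]; ring
      rw [this]
      exact dvd_sub (h2.mul_left _) (a1.mul_left _)
    have a5 : d ∣ 144 * X ^ 2 * Y ^ 2 * R ^ 7 := by
      have b1 : d ∣ gcd (144 * X ^ 2 * Y ^ 2 * f ^ 7) (144 * X ^ 2 * Y ^ 2 * g ^ 7) := dvd_gcd a3 a4
      have b2 : gcd (144 * X ^ 2 * Y ^ 2 * f ^ 7) (144 * X ^ 2 * Y ^ 2 * g ^ 7) ∣
          144 * X ^ 2 * Y ^ 2 * gcd (f ^ 7) (g ^ 7) := (gcd_mul_left' _ _ _).dvd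
      have b3 : gcd (f ^ 7) (g ^ 7) ∣ R ^ 7 := by
        have c1 : (gcd f g) ∣ R := hR' _ (gcd_dvd_left _ _) (gcd_dvd_right _ _)
        have c2 : gcd (f ^ 7) (g ^ 7) ∣ (gcd f g) ^ 7 := by
          have : ((Int.gcd (f ^ 7) (g ^ 7) : ℕ) : ℤ) ∣ ((Int.gcd f g : ℕ) : ℤ) ^ 7 := by
            have e : Int.gcd (f ^ 7) (g ^ 7) = (Int.gcd f g) ^ 7 := by
              rw [Int.gcd, Int.gcd, Int.natAbs_pow, Int.natAbs_pow, Nat.pow_gcd_pow]
            rw [e]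
            push_cast
            exact dvd_rfl
          rwa [← Int.coe_gcd, ← Int.coe_gcd]
        exact c2.trans (pow_dvd_pow_of_dvd c1 7)
      exact b1.trans (b2.trans (mul_dvd_mul_left _ b3))
    -- coprimality to `Y`
    have c1 : IsCoprime d Y := by
      obtain ⟨u, hu⟩ := k1
      have e1 : IsCoprime (X ^ dg (j + 1) + Y * u) Y :=
        (IsCoprime.pow_left hXY).add_mul_left_left u
      have e2 : f1 = X ^ dg (j + 1) + Y * u := by linear_combination hu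
      rw [← e2] at e1
      exact IsCoprime.of_isCoprime_of_dvd_left e1 h1
    have a6 : d ∣ 144 * X ^ 2 * R ^ 7 := by
      have e : 144 * X ^ 2 * Y ^ 2 * R ^ 7 = Y ^ 2 * (144 * X ^ 2 * R ^ 7) := by ring
      rw [e] at a5
      exact (IsCoprime.pow_right c1).dvd_of_dvd_mul_left a5
    obtain ⟨u, hu⟩ := k2
    have a7 : d ∣ (Y ^ dg (j + 1)) ^ 2 * (144 * R ^ 7 * (4 ^ dg (j + 1)) ^ 2) := by
      have e : (Y ^ dg (j + 1)) ^ 2 * (144 * R ^ 7 * (4 ^ dg (j + 1)) ^ 2) =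
          u ^ 2 * (144 * X ^ 2 * R ^ 7) +
            144 * R ^ 7 * (2 * (4 ^ dg (j + 1) * Y ^ dg (j + 1)) - g1) * g1 := by
        have h3 : X * u = g1 - 4 ^ dg (j + 1) * Y ^ dg (j + 1) := by linear_combination -hu
        have h4 : (X * u) ^ 2 = (g1 - 4 ^ dg (j + 1) * Y ^ dg (j + 1)) ^ 2 := by rw [h3]
        linear_combination (-144 * R ^ 7) * h4
      rw [e]
      exact dvd_add (a6.mul_left _) (h2.mul_left _)
    have c2 : IsCoprime d ((Y ^ dg (j + 1)) ^ 2) := by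
      rw [← pow_mul]
      exact IsCoprime.pow_right c1
    exact c2.dvd_of_dvd_mul_left a7

/-- upper bounds -/
lemma fg_upper (j : ℕ) : ∃ C : ℝ, 1 ≤ C ∧ ∀ X Y H : ℝ, |X| ≤ H → |Y| ≤ H →
    |(fg X Y j).1| ≤ C * H ^ dg j ∧ |(fg X Y j).2| ≤ C * H ^ dg j := by
  induction j with
  | zero => exact ⟨1, le_rfl, fun X Y H _ _ => by simp [fg, dg]⟩
  | succ j ih =>
    obtain ⟨C, hC, h⟩ := ih
    refine ⟨9 * C ^ 4, by nlinarith [one_le_pow₀ hC (n := 4)], ?_⟩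
    intro X Y H hX hY
    obtain ⟨h1, h2⟩ := h X Y H hX hY
    have hH : 0 ≤ H := (abs_nonneg _).trans hX
    rw [fg_succ, dg]
    simp only
    obtain ⟨f, hf⟩ : ∃ f, f = (fg X Y j).1 := ⟨_, rfl⟩
    obtain ⟨g, hg⟩ : ∃ g, g = (fg X Y j).2 := ⟨_, rfl⟩
    rw [← hf] at h1
    rw [← hg] at h2
    rw [← hf, ← hg]
    obtain ⟨B, hB⟩ : ∃ B, B = C * H ^ dg j := ⟨_, rfl⟩
    rw [← hB] at h1 h2
    have hB0 : 0 ≤ B := (abs_nonneg _).trans h1
    have h3 : |f| ^ 3 ≤ B ^ 3 := pow_le_pow_left₀ (abs_nonneg _) h1 3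
    have h4 : |g| ^ 3 ≤ B ^ 3 := pow_le_pow_left₀ (abs_nonneg _) h2 3
    have h5 : |X * f ^ 3| ≤ H * B ^ 3 := by
      rw [abs_mul, abs_pow]; exact mul_le_mul hX h3 (by positivity) hH
    have h6 : |Y * g ^ 3| ≤ H * B ^ 3 := by
      rw [abs_mul, abs_pow]; exact mul_le_mul hY h4 (by positivity) hH
    have e0 : H ^ (4 * dg j + 1) = H * (H ^ dg j) ^ 4 := by
      rw [pow_succ, pow_mul']; ring
    have e1 : 9 * C ^ 4 * H ^ (4 * dg j + 1) = B * (9 * (H * B ^ 3)) := by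
      rw [e0, hB]; ring
    rw [e1]
    constructor
    · rw [abs_mul]
      apply mul_le_mul h1 _ (abs_nonneg _) hB0
      have : |X * f ^ 3 - 8 * Y * g ^ 3| ≤ |X * f ^ 3| + 8 * |Y * g ^ 3| := by
        calc |X * f ^ 3 - 8 * Y * g ^ 3| ≤ |X * f ^ 3| + |8 * Y * g ^ 3| := abs_sub _ _
          _ = _ := by rw [mul_assoc, abs_mul 8]; norm_num
      linarith
    · have e2 : 4 * g * (X * f ^ 3 + Y * g ^ 3) = g * (4 * (X * f ^ 3 + Y * g ^ 3)) := by ring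
      rw [e2, abs_mul]
      apply mul_le_mul h2 _ (abs_nonneg _) hB0
      have : |4 * (X * f ^ 3 + Y * g ^ 3)| ≤ 4 * (|X * f ^ 3| + |Y * g ^ 3|) := by
        calc |4 * (X * f ^ 3 + Y * g ^ 3)| = 4 * |X * f ^ 3 + Y * g ^ 3| := by
              rw [abs_mul, abs_of_pos (by norm_num : (0 : ℝ) < 4)]
          _ ≤ _ := mul_le_mul_of_nonneg_left (abs_add_le _ _) (by norm_num)
      have h7 : 0 ≤ H * B ^ 3 := by positivity
      linarith

/-- lower bounds if `X` is much larger than `Y` -/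
lemma fg_lower (j : ℕ) : ∃ M c : ℝ, 1 ≤ M ∧ 0 < c ∧ ∀ X Y : ℝ, M * |Y| ≤ |X| →
    c * |X| ^ dg j ≤ |(fg X Y j).1| ∧ c * |X| ^ dg j ≤ |(fg X Y j).2| := by
  induction j with
  | zero => exact ⟨1, 1, le_rfl, one_pos, fun X Y _ => by simp [fg, dg]⟩
  | succ j ih =>
    obtain ⟨M, c, hM, hc, h⟩ := ih
    obtain ⟨C, hC, hup⟩ := fg_upper j
    refine ⟨max M (16 * C ^ 3 / c ^ 3), c ^ 4 / 2, hM.trans (le_max_left _ _), by positivity, ?_⟩
    intro X Y hXY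
    have hM1 : M * |Y| ≤ |X| := (mul_le_mul_of_nonneg_right (le_max_left _ _) (abs_nonneg _)).trans hXY
    have hM2 : 16 * C ^ 3 / c ^ 3 * |Y| ≤ |X| :=
      (mul_le_mul_of_nonneg_right (le_max_right _ _) (abs_nonneg _)).trans hXY
    have hYX : |Y| ≤ |X| := by nlinarith [abs_nonneg Y]
    obtain ⟨h1, h2⟩ := h X Y hM1
    obtain ⟨h3, h4⟩ := hup X Y |X| le_rfl hYX
    rw [fg_succ, dg]
    simp only
    obtain ⟨f, hf⟩ : ∃ f, f = (fg X Y j).1 := ⟨_, rfl⟩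
    obtain ⟨g, hg⟩ : ∃ g, g = (fg X Y j).2 := ⟨_, rfl⟩
    rw [← hf] at h1 h3
    rw [← hg] at h2 h4
    rw [← hf, ← hg]
    obtain ⟨T, hT⟩ : ∃ T, T = |X| ^ dg j := ⟨_, rfl⟩
    rw [← hT] at h1 h2 h3 h4
    have hT0 : 0 ≤ T := by rw [hT]; positivity
    have e1 : |X| ^ (4 * dg j + 1) = |X| * T ^ 4 := by rw [hT, pow_succ, pow_mul']; ring
    rw [e1]
    have h5 : c ^ 3 * (|X| * T ^ 3) ≤ |X * f ^ 3| := by
      rw [abs_mul, abs_pow]
      have : (c * T) ^ 3 ≤ |f| ^ 3 := pow_le_pow_left₀ (by positivity) h1 3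
      calc c ^ 3 * (|X| * T ^ 3) = |X| * (c * T) ^ 3 := by ring
        _ ≤ _ := mul_le_mul_of_nonneg_left this (abs_nonneg _)
    have h6 : 8 * |Y * g ^ 3| ≤ c ^ 3 / 2 * (|X| * T ^ 3) := by
      rw [abs_mul, abs_pow]
      have e2 : |g| ^ 3 ≤ (C * T) ^ 3 := pow_le_pow_left₀ (abs_nonneg _) h4 3
      have e3 : 16 * C ^ 3 * |Y| ≤ c ^ 3 * |X| := by
        rw [div_mul_eq_mul_div, div_le_iff₀ (by positivity)] at hM2
        linarith
      calc 8 * (|Y| * |g| ^ 3) ≤ 8 * (|Y| * (C * T) ^ 3) := by gcongr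
        _ = (16 * C ^ 3 * |Y|) * (T ^ 3 / 2) := by ring
        _ ≤ (c ^ 3 * |X|) * (T ^ 3 / 2) := mul_le_mul_of_nonneg_right e3 (by positivity)
        _ = _ := by ring
    have h7 : 0 ≤ |X| * T ^ 3 := by positivity
    constructor
    · rw [abs_mul]
      have h8 : c ^ 3 / 2 * (|X| * T ^ 3) ≤ |X * f ^ 3 - 8 * Y * g ^ 3| := by
        have : |X * f ^ 3| - |8 * Y * g ^ 3| ≤ |X * f ^ 3 - 8 * Y * g ^ 3| :=
          abs_sub_abs_le_abs_sub _ _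
        have e4 : |8 * Y * g ^ 3| = 8 * |Y * g ^ 3| := by rw [mul_assoc, abs_mul 8]; norm_num
        rw [e4] at this
        linarith
      calc c ^ 4 / 2 * (|X| * T ^ 4) = (c * T) * (c ^ 3 / 2 * (|X| * T ^ 3)) := by ring
        _ ≤ _ := mul_le_mul h1 h8 (by positivity) (abs_nonneg _)
    · have h8 : c ^ 3 / 2 * (|X| * T ^ 3) ≤ |X * f ^ 3 + Y * g ^ 3| := by
        have : |X * f ^ 3| - |-(Y * g ^ 3)| ≤ |X * f ^ 3 - -(Y * g ^ 3)| :=
          abs_sub_abs_le_abs_sub _ _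
        rw [abs_neg, sub_neg_eq_add] at this
        have := abs_nonneg (Y * g ^ 3)
        linarith
      have e5 : |4 * g * (X * f ^ 3 + Y * g ^ 3)| = 4 * (|g| * |X * f ^ 3 + Y * g ^ 3|) := by
        rw [mul_assoc, abs_mul 4, abs_mul]
        norm_num
      rw [e5]
      have h9 : (c * T) * (c ^ 3 / 2 * (|X| * T ^ 3)) ≤ |g| * |X * f ^ 3 + Y * g ^ 3| :=
        mul_le_mul h2 h8 (by positivity) (abs_nonneg _)
      have e6 : c ^ 4 / 2 * (|X| * T ^ 4) = (c * T) * (c ^ 3 / 2 * (|X| * T ^ 3)) := by ring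
      rw [e6]
      have : 0 ≤ (c * T) * (c ^ 3 / 2 * (|X| * T ^ 3)) := by positivity
      linarith

end Pool.Agent.K7.H71.Hall
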