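import Mathlib
import Pool.Agent.K7.H71.Hall.FG

/-!
The group law: coordinates of `2 ^ j Q` on `y ^ 2 = x ^ 3 + k`.
-/

set_option autoImplicit false

namespace Pool.Agent.K7.H71.Hall

open WeierstrassCurve Polynomial

/-- the Mordell curve `y ^ 2 = x ^ 3 + k` -/
def Cv (k : ℤ) : WeierstrassCurve.Affine ℚ := ⟨0, 0, 0, 0, k⟩

lemma Cv_negY (k : ℤ) (x y : ℚ) : (Cv k).negY x y = -y := by
  simp [Affine.negY, Cv]

lemma Cv_eq (k : ℤ) {x y : ℚ} (h : (Cv k).Nonsingular x y) : y ^ 2 = x ^ 3 + k := by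
  have := (Affine.equation_iff x y).1 h.1
  simpa [Cv] using this

lemma Cv_nonsingular (k : ℤ) (hk : k ≠ 0) {x y : ℚ} (h : y ^ 2 = x ^ 3 + k) :
    (Cv k).Nonsingular x y := by
  rw [Affine.nonsingular_iff, Affine.equation_iff]
  simp only [Cv]
  refine ⟨by linear_combination h, ?_⟩
  by_contra hcon
  push Not at hcon
  obtain ⟨h1, h2⟩ := hcon
  have hx : x = 0 := by
    have : x ^ 2 = 0 := by linear_combination (-1 / 3 : ℚ) * h1
    exact pow_eq_zero_iff (by norm_num) |>.1 this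
  have hy : y = 0 := by linear_combination h2 / 2
  rw [hx, hy] at h
  apply hk
  have : (k : ℚ) = 0 := by linear_combination -h
  exact_mod_cast this

/-- doubling -/
lemma dbl_some (k : ℤ) {x y : ℚ} (h : (Cv k).Nonsingular x y) (hy : y ≠ 0) :
    ∃ x' y' : ℚ, ∃ h' : (Cv k).Nonsingular x' y',
      (2 : ℕ) • (Affine.Point.some x y h : (Cv k).Point) = Affine.Point.some x' y' h' ∧
      x' * (4 * (x ^ 3 + k)) = x * (x ^ 3 - 8 * k) := by
  have hne : y ≠ (Cv k).negY x y := by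
    rw [Cv_negY]
    intro hh
    exact hy (by linarith)
  refine ⟨_, _, Affine.nonsingular_add h h fun hxy => hne hxy.right, ?_, ?_⟩
  · rw [two_nsmul, Affine.Point.add_self_of_Y_ne hne]
  · rw [Affine.slope_of_Y_ne rfl hne, Cv_negY, Affine.addX]
    simp only [Cv]
    have e := Cv_eq k h
    have h2 : y - -y ≠ 0 := by
      intro hh
      exact hy (by linarith)
    rw [← e]
    field_simp
    have e4 : (k : ℚ) = y ^ 2 - x ^ 3 := by linear_combination -e
    rw [e4]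
    ring

lemma dbl_zero (k : ℤ) {x : ℚ} (h : (Cv k).Nonsingular x 0) :
    (2 : ℕ) • (Affine.Point.some x 0 h : (Cv k).Point) = 0 := by
  rw [two_nsmul, Affine.Point.add_self_of_Y_eq]
  rw [Cv_negY, neg_zero]

lemma dbl_aff (k : ℤ) {x y x' y' : ℚ} (h : (Cv k).Nonsingular x y) (h' : (Cv k).Nonsingular x' y')
    (hd : (2 : ℕ) • (Affine.Point.some x y h : (Cv k).Point) = Affine.Point.some x' y' h') :
    y ≠ 0 ∧ x' * (4 * (x ^ 3 + k)) = x * (x ^ 3 - 8 * k) := by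
  have hy : y ≠ 0 := by
    rintro rfl
    rw [dbl_zero] at hd
    exact Affine.Point.some_ne_zero h' hd.symm
  refine ⟨hy, ?_⟩
  obtain ⟨x1, y1, h1, e1, e2⟩ := dbl_some k h hy
  rw [e1] at hd
  have : x1 = x' := by
    injection hd
  rw [← this]
  exact e2

/-- integrality descends -/
lemma int_descend (k x' : ℤ) (x : ℚ) (h : (x' : ℚ) * (4 * (x ^ 3 + k)) = x * (x ^ 3 - 8 * k)) :
    ∃ a : ℤ, (a : ℚ) = x := by
  have hm : (X ^ 4 + (C (-(4 * x')) * X ^ 3 + (C (-(8 * k)) * X + C (-(4 * k * x')))) : ℤ[X]).Monic := by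
    apply monic_X_pow_add
    compute_degree
    norm_num
  have hr : aeval x (X ^ 4 + (C (-(4 * x')) * X ^ 3 + (C (-(8 * k)) * X + C (-(4 * k * x')))) : ℤ[X])
      = 0 := by
    simp only [map_add, map_mul, map_pow, aeval_X, aeval_C]
    simp only [algebraMap_int_eq, eq_intCast]
    push_cast
    linear_combination -h
  obtain ⟨a, ha⟩ := isInteger_of_is_root_of_monic hm hr
  exact ⟨a, by simpa using ha⟩

/-- the coordinates of `Q`, if `2 ^ j Q` is an integral point -/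
lemma chain_down (k : ℤ) (j : ℕ) : ∀ (Q : (Cv k).Point) (x : ℤ) (y : ℚ)
    (h : (Cv k).Nonsingular (x : ℚ) y), (2 : ℕ) ^ j • Q = Affine.Point.some (x : ℚ) y h →
    ∃ a : ℤ, (fg (a ^ 3) k j).2 ≠ 0 ∧ x * (fg (a ^ 3) k j).2 = a * (fg (a ^ 3) k j).1 := by
  induction j with
  | zero =>
    intro Q x y h hQ
    exact ⟨x, by simp [fg_zero], by simp [fg_zero]⟩
  | succ j ih =>
    intro Q x y h hQ
    rw [pow_succ', mul_nsmul'] at hQ
    obtain ⟨P, hP⟩ : ∃ P, P = (2 : ℕ) ^ j • Q := ⟨_, rfl⟩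
    rw [← hP] at hQ
    rcases P with _ | ⟨x1, y1, h1⟩
    · exfalso
      rw [← Affine.Point.zero_def, nsmul_zero] at hQ
      exact Affine.Point.some_ne_zero h hQ.symm
    · obtain ⟨hy1, hrel⟩ := dbl_aff k h1 h hQ
      obtain ⟨b, hb⟩ := int_descend k x x1 hrel
      subst hb
      obtain ⟨a, ha1, ha2⟩ := ih Q b y1 h1 hP.symm
      have e1 := Cv_eq k h1
      have hne : b ^ 3 + k ≠ 0 := by
        intro h0
        have : ((b : ℚ) ^ 3 + k) = 0 := by exact_mod_cast h0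
        rw [this] at e1
        exact hy1 (pow_eq_zero_iff (by norm_num) |>.1 e1)
      have hrel' : x * (4 * (b ^ 3 + k)) = b * (b ^ 3 - 8 * k) := by exact_mod_cast hrel
      refine ⟨a, ?_, ?_⟩
      · rw [fg_succ]
        simp only
        obtain ⟨f, hf⟩ : ∃ f, f = (fg (a ^ 3) k j).1 := ⟨_, rfl⟩
        obtain ⟨g, hg⟩ : ∃ g, g = (fg (a ^ 3) k j).2 := ⟨_, rfl⟩
        rw [← hg] at ha1
        rw [← hf, ← hg] at ha2
        rw [← hf, ← hg]
        have e2 : a ^ 3 * f ^ 3 + k * g ^ 3 = g ^ 3 * (b ^ 3 + k) := by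
          have : (b * g) ^ 3 = (a * f) ^ 3 := by rw [ha2]
          linear_combination -this
        rw [e2]
        have hg3 : g ^ 3 ≠ 0 := pow_ne_zero 3 ha1
        exact mul_ne_zero (mul_ne_zero (by norm_num) ha1) (mul_ne_zero hg3 hne)
      · rw [fg_succ]
        simp only
        obtain ⟨f, hf⟩ : ∃ f, f = (fg (a ^ 3) k j).1 := ⟨_, rfl⟩
        obtain ⟨g, hg⟩ : ∃ g, g = (fg (a ^ 3) k j).2 := ⟨_, rfl⟩
        rw [← hg] at ha1
        rw [← hf, ← hg] at ha2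
        rw [← hf, ← hg]
        have e2 : a ^ 3 * f ^ 3 + k * g ^ 3 = g ^ 3 * (b ^ 3 + k) := by
          have : (b * g) ^ 3 = (a * f) ^ 3 := by rw [ha2]
          linear_combination -this
        have e3 : a ^ 3 * f ^ 3 - 8 * k * g ^ 3 = g ^ 3 * (b ^ 3 - 8 * k) := by
          have : (b * g) ^ 3 = (a * f) ^ 3 := by rw [ha2]
          linear_combination -this
        rw [e2, e3]
        linear_combination g ^ 4 * hrel' + g ^ 3 * (b ^ 3 - 8 * k) * ha2

/-- the multiples `2 ^ j Q` -/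
lemma chain_up (k : ℤ) (a : ℤ) (b : ℚ) (h0 : (Cv k).Nonsingular (a : ℚ) b) (j : ℕ)
    (hg : (fg (a ^ 3) k j).2 ≠ 0) :
    ∃ x y : ℚ, ∃ h : (Cv k).Nonsingular x y,
      (2 : ℕ) ^ j • (Affine.Point.some (a : ℚ) b h0 : (Cv k).Point) = Affine.Point.some x y h ∧
      x * ((fg (a ^ 3) k j).2 : ℤ) = a * ((fg (a ^ 3) k j).1 : ℤ) := by
  induction j with
  | zero =>
    exact ⟨a, b, h0, by simp, by simp [fg_zero]⟩
  | succ j ih =>
    rw [fg_succ] at hg ⊢
    simp only at hg ⊢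
    have hgj : (fg (a ^ 3) k j).2 ≠ 0 := by
      intro h
      rw [h] at hg
      simp at hg
    obtain ⟨x, y, h, hxy, hrel⟩ := ih hgj
    obtain ⟨f, hf⟩ : ∃ f, f = (fg (a ^ 3) k j).1 := ⟨_, rfl⟩
    obtain ⟨g, hg'⟩ : ∃ g, g = (fg (a ^ 3) k j).2 := ⟨_, rfl⟩
    rw [← hf, ← hg'] at hg hrel
    rw [← hg'] at hgj
    rw [← hf, ← hg']
    have e1 := Cv_eq k h
    have hgQ : (g : ℚ) ≠ 0 := by exact_mod_cast hgj
    have e2 : (a : ℚ) ^ 3 * f ^ 3 + k * g ^ 3 = g ^ 3 * (x ^ 3 + k) := by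
      have : (x * g) ^ 3 = ((a : ℚ) * f) ^ 3 := by rw [hrel]
      linear_combination -this
    have e3 : (a : ℚ) ^ 3 * f ^ 3 - 8 * k * g ^ 3 = g ^ 3 * (x ^ 3 - 8 * k) := by
      have : (x * g) ^ 3 = ((a : ℚ) * f) ^ 3 := by rw [hrel]
      linear_combination -this
    have hy : y ≠ 0 := by
      rintro rfl
      apply hg
      have : ((4 * g * (a ^ 3 * f ^ 3 + k * g ^ 3) : ℤ) : ℚ) = 0 := by
        push_cast
        rw [e2, ← e1]
        ring
      exact_mod_cast this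
    obtain ⟨x', y', h', hd, hrel'⟩ := dbl_some k h hy
    refine ⟨x', y', h', ?_, ?_⟩
    · rw [pow_succ', mul_nsmul', hxy, hd]
    · push_cast
      rw [e2, e3]
      linear_combination (g : ℚ) ^ 4 * hrel' + (g : ℚ) ^ 3 * (x ^ 3 - 8 * k) * hrel

end Pool.Agent.K7.H71.Hall
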