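import Mathlib
import Pool.Agent.K7.H71.Hall.FG
import Pool.Agent.W472.AC.RothThm

/-!
The real roots of `g_j (T, 1)` have multiplicity at most two; with Roth's theorem this gives a lower bound
for `g_j` at coprime integers.
-/

set_option autoImplicit false

namespace Pool.Agent.K7.H71.Hall

open Polynomial Topology Filter

section poly

/-- `f_j (T, 1)` -/
noncomputable def Fp (j : ℕ) : ℝ[X] := (fg (X : ℝ[X]) 1 j).1

/-- `g_j (T, 1)` -/
noncomputable def Gp (j : ℕ) : ℝ[X] := (fg (X : ℝ[X]) 1 j).2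

/-- `T f_j ^ 3 + g_j ^ 3` -/
noncomputable def Sp (j : ℕ) : ℝ[X] := X * Fp j ^ 3 + Gp j ^ 3

/-- the numerator of the derivative -/
noncomputable def Wp (j : ℕ) : ℝ[X] :=
  (Fp j + 3 * X * derivative (Fp j)) * Gp j - 3 * X * Fp j * derivative (Gp j)

lemma Fp_succ (j : ℕ) : Fp (j + 1) = Fp j * (X * Fp j ^ 3 - 8 * Gp j ^ 3) := by
  simp only [Fp, Gp, fg_succ, mul_one]

lemma Gp_succ (j : ℕ) : Gp (j + 1) = 4 * Gp j * (X * Fp j ^ 3 + Gp j ^ 3) := by
  simp only [Fp, Gp, fg_succ, one_mul]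

lemma Sp_succ (j : ℕ) : Sp (j + 1) =
    ((X * Fp j ^ 3) ^ 2 + 20 * (X * Fp j ^ 3) * Gp j ^ 3 - 8 * (Gp j ^ 3) ^ 2) ^ 2 := by
  rw [Sp, Fp_succ, Gp_succ]
  ring

lemma derivative_ofNat' (n : ℕ) [n.AtLeastTwo] : derivative (OfNat.ofNat n : ℝ[X]) = 0 :=
  derivative_ofNat n

lemma Wp_succ (j : ℕ) : Wp (j + 1) =
    4 * Wp j * ((X * Fp j ^ 3) ^ 2 + 20 * (X * Fp j ^ 3) * Gp j ^ 3 - 8 * (Gp j ^ 3) ^ 2) := by
  rw [Wp, Fp_succ, Gp_succ, Wp]
  simp only [derivative_mul, derivative_sub, derivative_add, derivative_pow, derivative_X,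
    derivative_ofNat, Nat.cast_ofNat, map_ofNat]
  norm_num
  ring

lemma Wp_sq (j : ℕ) : Wp j ^ 2 * (X + 1) = 4 ^ j * Gp j * Sp j := by
  induction j with
  | zero =>
    simp [Wp, Sp, Fp, Gp, fg_zero]
  | succ j ih =>
    rw [Wp_succ, Sp_succ, Gp_succ]
    have h : Wp j ^ 2 * (X + 1) = 4 ^ j * Gp j * (X * Fp j ^ 3 + Gp j ^ 3) := ih
    rw [pow_succ]
    linear_combination 16 * ((X * Fp j ^ 3) ^ 2 + 20 * (X * Fp j ^ 3) * Gp j ^ 3
      - 8 * (Gp j ^ 3) ^ 2) ^ 2 * h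

lemma eval_Fp (t : ℝ) (j : ℕ) : (Fp j).eval t = (fg t 1 j).1 := by
  have h := fg_map (evalRingHom t) (X : ℝ[X]) 1 j
  simp only [coe_evalRingHom, eval_X, eval_one] at h
  rw [h]; rfl

lemma eval_Gp (t : ℝ) (j : ℕ) : (Gp j).eval t = (fg t 1 j).2 := by
  have h := fg_map (evalRingHom t) (X : ℝ[X]) 1 j
  simp only [coe_evalRingHom, eval_X, eval_one] at h
  rw [h]; rfl

lemma Gp_ne_zero (j : ℕ) : Gp j ≠ 0 := by
  obtain ⟨M, c, hM, hc, h⟩ := fg_lower j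
  have h1 := (h M 1 (by rw [abs_one, mul_one]; exact le_abs_self M)).2
  intro h0
  have h2 := eval_Gp M j
  rw [h0, eval_zero] at h2
  rw [← h2, abs_zero] at h1
  have : 0 < c * |M| ^ dg j := by
    have : (0 : ℝ) < |M| := abs_pos.2 (by linarith)
    positivity
  linarith

/-- no common zeros -/
lemma fg_no_common (t : ℝ) (ht : t ≠ 0) (j : ℕ) : ¬ ((fg t 1 j).1 = 0 ∧ (fg t 1 j).2 = 0) := by
  induction j with
  | zero => simp [fg_zero]
  | succ j ih =>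
    rw [fg_succ]
    simp only [one_mul, mul_one]
    rintro ⟨h1, h2⟩
    apply ih
    obtain ⟨f, hf⟩ : ∃ f, f = (fg t 1 j).1 := ⟨_, rfl⟩
    obtain ⟨g, hg⟩ : ∃ g, g = (fg t 1 j).2 := ⟨_, rfl⟩
    rw [← hf, ← hg] at h1 h2 ⊢
    have a1 : 36 * f * g ^ 4 = 0 := by linear_combination f * h2 - 4 * g * h1
    have a2 : 36 * t * f ^ 4 * g = 0 := by linear_combination 8 * f * h2 + 4 * g * h1
    by_cases hg0 : g = 0
    · rw [hg0] at h1
      have : f ^ 4 = 0 := by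
        have h3 : t * f ^ 4 = 0 := by linear_combination h1
        exact (mul_eq_zero.1 h3).resolve_left ht
      exact ⟨pow_eq_zero_iff (by norm_num) |>.1 this, hg0⟩
    · have hf0 : f = 0 := by
        rcases mul_eq_zero.1 a1 with h | h
        · rcases mul_eq_zero.1 h with h | h
          · norm_num at h
          · exact h
        · exact absurd (pow_eq_zero_iff (by norm_num) |>.1 h) hg0
      rw [hf0] at h2
      exfalso
      apply hg0
      have h3 : g ^ 4 = 0 := by linear_combination h2 / 4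
      exact pow_eq_zero_iff (by norm_num) |>.1 h3

lemma Gp_eval_zero_ne (j : ℕ) : (fg (0 : ℝ) 1 j).2 ≠ 0 := by
  have h := g_mod_X (0 : ℝ) 1 j
  rw [zero_dvd_iff] at h
  have h1 : (fg (0 : ℝ) 1 j).2 = 4 ^ dg j := by
    rw [one_pow, mul_one] at h
    linarith
  rw [h1]
  positivity

/-- descent of multiplicities -/
lemma mult_step (j : ℕ) (ρ : ℝ) (n : ℕ) (hn : 3 ≤ n) (h : (X - C ρ) ^ n ∣ Gp j) :
    (X - C ρ) ^ (n + 1) ∣ Gp j := by
  have hroot : (fg ρ 1 j).2 = 0 := by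
    rw [← eval_Gp]
    have h1 : (X - C ρ) ∣ Gp j := (dvd_pow_self _ (by omega)).trans h
    rwa [dvd_iff_isRoot] at h1
  have hρ : ρ ≠ 0 := by
    rintro rfl
    exact Gp_eval_zero_ne j hroot
  have hS : (Sp j).eval ρ ≠ 0 := by
    rw [Sp]
    simp only [eval_add, eval_mul, eval_X, eval_pow]
    rw [eval_Fp, eval_Gp, hroot]
    have hf : (fg ρ 1 j).1 ≠ 0 := fun hf => fg_no_common ρ hρ j ⟨hf, hroot⟩
    simpa using ⟨hρ, hf⟩
  have hd : (X - C ρ) ^ (n - 1) ∣ derivative (Gp j) := pow_sub_one_dvd_derivative_of_pow_dvd h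
  have hG' : (X - C ρ) ^ (n - 1) ∣ Gp j := (pow_dvd_pow _ (by omega)).trans h
  have hW : (X - C ρ) ^ (n - 1) ∣ Wp j := by
    rw [Wp]
    exact dvd_sub (hG'.mul_left _) (hd.mul_left _)
  have hW2 : (X - C ρ) ^ (n + 1) ∣ Wp j ^ 2 * (X + 1) := by
    apply Dvd.dvd.mul_right
    have h2 : ((X - C ρ) ^ (n - 1)) ^ 2 ∣ Wp j ^ 2 := pow_dvd_pow_of_dvd hW 2
    rw [← pow_mul] at h2
    exact (pow_dvd_pow _ (by omega)).trans h2
  rw [Wp_sq] at hW2
  have hcop : IsCoprime (X - C ρ) (Sp j) := by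
    rw [(irreducible_X_sub_C ρ).coprime_iff_not_dvd, dvd_iff_isRoot]
    exact hS
  have h3 : (X - C ρ) ^ (n + 1) ∣ 4 ^ j * Gp j := (IsCoprime.pow_left hcop).dvd_of_dvd_mul_right hW2
  have h4 : IsUnit ((4 : ℝ[X]) ^ j) := by
    apply IsUnit.pow
    have : (4 : ℝ[X]) = C 4 := (map_ofNat C 4).symm
    rw [this, isUnit_C]
    norm_num
  exact (h4.dvd_mul_left).1 h3

lemma mult_le (j : ℕ) (ρ : ℝ) : rootMultiplicity ρ (Gp j) ≤ 2 := by
  by_contra hcon
  push Not at hcon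
  have h1 := pow_rootMultiplicity_dvd (Gp j) ρ
  have h2 := mult_step j ρ _ (by omega) h1
  exact pow_rootMultiplicity_not_dvd (Gp_ne_zero j) ρ h2

end poly

/-- quadratic lower bound near every point -/
lemma local_lower (j : ℕ) (ρ : ℝ) : ∃ c : ℝ, 0 < c ∧
    ∀ᶠ t in 𝓝 ρ, c * |t - ρ| ^ 2 ≤ |(fg t 1 j).2| := by
  obtain ⟨q, hq, hnd⟩ := exists_eq_pow_rootMultiplicity_mul_and_not_dvd (Gp j) (Gp_ne_zero j) ρ
  have hm := mult_le j ρ
  rw [dvd_iff_isRoot, IsRoot.def] at hnd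
  have hcont : Tendsto (fun t => |q.eval t|) (𝓝 ρ) (𝓝 |q.eval ρ|) :=
    (q.continuous.abs).tendsto ρ
  have hpos : 0 < |q.eval ρ| := abs_pos.2 hnd
  refine ⟨|q.eval ρ| / 2, by positivity, ?_⟩
  have h1 : ∀ᶠ t in 𝓝 ρ, |q.eval ρ| / 2 < |q.eval t| :=
    hcont.eventually (lt_mem_nhds (by linarith))
  have h2 : ∀ᶠ t in 𝓝 ρ, |t - ρ| < 1 := by
    have : Tendsto (fun t => |t - ρ|) (𝓝 ρ) (𝓝 |ρ - ρ|) :=
      ((continuous_id.sub continuous_const).abs).tendsto ρ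
    rw [sub_self, abs_zero] at this
    exact this.eventually (gt_mem_nhds one_pos)
  filter_upwards [h1, h2] with t ht1 ht2
  rw [← eval_Gp, hq]
  simp only [eval_mul, eval_pow, eval_sub, eval_X, eval_C]
  rw [abs_mul, abs_pow]
  have h3 : |t - ρ| ^ 2 ≤ |t - ρ| ^ (rootMultiplicity ρ (Gp j)) :=
    pow_le_pow_of_le_one (abs_nonneg _) ht2.le hm
  rw [mul_comm]
  exact mul_le_mul h3 ht1.le (by positivity) (by positivity)

/-- real roots of `g_j (T, 1)` are algebraic -/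
lemma root_algebraic (j : ℕ) (ρ : ℝ) (h : (fg ρ 1 j).2 = 0) : IsAlgebraic ℚ ρ := by
  refine ⟨(fg (X : ℚ[X]) 1 j).2, ?_, ?_⟩
  · intro h0
    obtain ⟨M, c, hM, hc, hl⟩ := fg_lower j
    have h1 := (hl M 1 (by rw [abs_one, mul_one]; exact le_abs_self M)).2
    have h2 := fg_map (aeval M : ℚ[X] →ₐ[ℚ] ℝ).toRingHom (X : ℚ[X]) 1 j
    have h3 : (fg M 1 j).2 = aeval M (fg (X : ℚ[X]) 1 j).2 := by
      have := congrArg Prod.snd h2
      simpa using this
    rw [h0, map_zero] at h3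
    rw [h3, abs_zero] at h1
    have : 0 < c * |M| ^ dg j := by
      have : (0 : ℝ) < |M| := abs_pos.2 (by linarith)
      positivity
    linarith
  · have h2 := fg_map (aeval ρ : ℚ[X] →ₐ[ℚ] ℝ).toRingHom (X : ℚ[X]) 1 j
    have h3 : (fg ρ 1 j).2 = aeval ρ (fg (X : ℚ[X]) 1 j).2 := by
      have := congrArg Prod.snd h2
      simpa using this
    rw [← h3, h]

/-- an algebraic number is not too close to other rational numbers -/
lemma approx (ρ : ℝ) (hρ : IsAlgebraic ℚ ρ) (η : ℝ) (hη : 0 < η) : ∃ c : ℝ, 0 < c ∧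
    ∀ x y : ℤ, y ≠ 0 → (x : ℝ) / y ≠ ρ → c * |(y : ℝ)| ^ (-(2 + η)) ≤ |(x : ℝ) / y - ρ| := by
  by_cases hirr : Irrational ρ
  · obtain ⟨c, hc, h⟩ := W472.AC.roth ρ hρ hirr η hη
    refine ⟨c, hc, ?_⟩
    intro x y hy _
    have hy1 : (1 : ℝ) ≤ |(y : ℝ)| := by
      have : (1 : ℤ) ≤ |y| := Int.one_le_abs hy
      exact_mod_cast this
    have hy0 : (0 : ℝ) < |(y : ℝ)| := by linarith
    have key : ∃ p : ℤ, |(y.natAbs : ℝ) * ρ - p| = |(y : ℝ)| * |(x : ℝ) / y - ρ| := by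
      have hyR : (y : ℝ) ≠ 0 := by exact_mod_cast hy
      refine ⟨y.sign * x, ?_⟩
      have e1 : ((y.natAbs : ℕ) : ℝ) = y.sign * y := by
        rw [Nat.cast_natAbs, ← Int.sign_mul_self_eq_abs]
        push_cast
        ring
      rw [e1]
      push_cast
      rw [← abs_mul, show (y.sign : ℝ) * y * ρ - y.sign * x = (y.sign : ℝ) * (-(y * (x / y - ρ))) by
        field_simp; ring, abs_mul, abs_neg]
      have : |(y.sign : ℝ)| = 1 := by
        have : |y.sign| = 1 := by rw [Int.abs_sign_of_ne_zero hy]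
        exact_mod_cast this
      rw [this, one_mul]
    obtain ⟨p, hp⟩ := key
    have h1 := h y.natAbs (Int.natAbs_pos.2 hy) p
    rw [hp] at h1
    have e2 : ((y.natAbs : ℕ) : ℝ) = |(y : ℝ)| := by
      rw [Nat.cast_natAbs, Int.cast_abs]
    rw [e2] at h1
    rw [Real.rpow_neg hy0.le, ← div_eq_mul_inv, div_le_iff₀ (by positivity)]
    have e3 : |(y : ℝ)| ^ (2 + η) = |(y : ℝ)| ^ (1 + η) * |(y : ℝ)| := by
      rw [show (2 : ℝ) + η = (1 + η) + 1 by ring, Real.rpow_add hy0, Real.rpow_one]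
    rw [e3]
    calc c ≤ |(y : ℝ)| ^ (1 + η) * (|(y : ℝ)| * |(x : ℝ) / y - ρ|) := h1
      _ = _ := by ring
  · unfold Irrational at hirr
    push Not at hirr
    obtain ⟨r, hr⟩ := hirr
    subst hr
    have hden : (0 : ℝ) < r.den := by exact_mod_cast r.den_pos
    refine ⟨1 / r.den, by positivity, ?_⟩
    intro x y hy hne
    have hy1 : (1 : ℝ) ≤ |(y : ℝ)| := by
      have : (1 : ℤ) ≤ |y| := Int.one_le_abs hy
      exact_mod_cast this
    have hy0 : (0 : ℝ) < |(y : ℝ)| := by linarith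
    have hyR : (y : ℝ) ≠ 0 := by exact_mod_cast hy
    have e1 : (r : ℝ) = (r.num : ℝ) / r.den := by
      exact_mod_cast (Rat.num_div_den r).symm
    have e2 : (x : ℝ) / y - r = ((x * r.den - r.num * y : ℤ) : ℝ) / (y * r.den) := by
      rw [e1]; push_cast; field_simp
    have e3 : (1 : ℝ) ≤ |((x * r.den - r.num * y : ℤ) : ℝ)| := by
      have h0 : x * r.den - r.num * y ≠ 0 := by
        intro h0
        apply hne
        have : (x : ℝ) / y - r = 0 := by rw [e2, h0]; simp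
        linarith
      have : (1 : ℤ) ≤ |x * r.den - r.num * y| := Int.one_le_abs h0
      exact_mod_cast this
    rw [e2, abs_div, abs_mul, abs_of_pos hden]
    have e4 : |(y : ℝ)| ^ (-(2 + η)) ≤ |(y : ℝ)| ^ (-1 : ℝ) :=
      Real.rpow_le_rpow_of_exponent_le hy1 (by linarith)
    rw [Real.rpow_neg_one] at e4
    calc 1 / (r.den : ℝ) * |(y : ℝ)| ^ (-(2 + η)) ≤ 1 / (r.den : ℝ) * |(y : ℝ)|⁻¹ := by gcongr
      _ = 1 / (|(y : ℝ)| * r.den) := by field_simp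
      _ ≤ _ := by gcongr

/-- lower bound for `g_j (T, 1)` at rational points of a bounded interval -/
lemma compact_lower (j : ℕ) (M : ℝ) (ε : ℝ) (hε : 0 < ε) : ∃ c : ℝ, 0 < c ∧
    ∀ x y : ℤ, y ≠ 0 → |(x : ℝ) / y| ≤ M → (fg ((x : ℝ) / y) 1 j).2 ≠ 0 →
      c * |(y : ℝ)| ^ (-(4 + ε)) ≤ |(fg ((x : ℝ) / y) 1 j).2| := by
  have hcomp : IsCompact (Set.Icc (-M) M) := isCompact_Icc
  have key : ∃ c : ℝ, 0 < c ∧ ∀ x y : ℤ, y ≠ 0 → ((x : ℝ) / y) ∈ Set.Icc (-M) M →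
      (fg ((x : ℝ) / y) 1 j).2 ≠ 0 →
      c * |(y : ℝ)| ^ (-(4 + ε)) ≤ |(fg ((x : ℝ) / y) 1 j).2| := by
    refine hcomp.induction_on (p := fun s => ∃ c : ℝ, 0 < c ∧ ∀ x y : ℤ, y ≠ 0 →
      ((x : ℝ) / y) ∈ s → (fg ((x : ℝ) / y) 1 j).2 ≠ 0 →
      c * |(y : ℝ)| ^ (-(4 + ε)) ≤ |(fg ((x : ℝ) / y) 1 j).2|) ?_ ?_ ?_ ?_
    · exact ⟨1, one_pos, fun x y _ h => absurd h (Set.notMem_empty _)⟩
    · rintro s t hst ⟨c, hc, h⟩
      exact ⟨c, hc, fun x y hy hs => h x y hy (hst hs)⟩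
    · rintro s t ⟨c, hc, h⟩ ⟨c', hc', h'⟩
      refine ⟨min c c', lt_min hc hc', fun x y hy hs hg => ?_⟩
      have hp : 0 ≤ |(y : ℝ)| ^ (-(4 + ε)) := by positivity
      rcases hs with hs | hs
      · exact (mul_le_mul_of_nonneg_right (min_le_left _ _) hp).trans (h x y hy hs hg)
      · exact (mul_le_mul_of_nonneg_right (min_le_right _ _) hp).trans (h' x y hy hs hg)
    · intro ρ _
      by_cases hρ : (fg ρ 1 j).2 = 0
      · obtain ⟨c1, hc1, h1⟩ := local_lower j ρ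
        obtain ⟨c2, hc2, h2⟩ := approx ρ (root_algebraic j ρ hρ) (ε / 2) (by positivity)
        refine ⟨{t | c1 * |t - ρ| ^ 2 ≤ |(fg t 1 j).2|}, mem_nhdsWithin_of_mem_nhds h1,
          c1 * c2 ^ 2, by positivity, ?_⟩
        intro x y hy hs hg
        have hne : (x : ℝ) / y ≠ ρ := by
          intro h
          rw [h] at hg
          exact hg hρ
        have h3 := h2 x y hy hne
        have h4 : c1 * |(x : ℝ) / y - ρ| ^ 2 ≤ |(fg ((x : ℝ) / y) 1 j).2| := hs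
        refine le_trans ?_ h4
        have hy0 : (0 : ℝ) < |(y : ℝ)| := by
          have : (1 : ℤ) ≤ |y| := Int.one_le_abs hy
          have : (1 : ℝ) ≤ |(y : ℝ)| := by exact_mod_cast this
          linarith
        have e1 : |(y : ℝ)| ^ (-(4 + ε)) = (|(y : ℝ)| ^ (-(2 + ε / 2))) ^ 2 := by
          rw [← Real.rpow_natCast, ← Real.rpow_mul hy0.le]
          congr 1
          push_cast
          ring
        rw [e1, mul_assoc, ← mul_pow]
        apply mul_le_mul_of_nonneg_left _ hc1.le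
        exact pow_le_pow_left₀ (by positivity) h3 2
      · have hpos : 0 < |(fg ρ 1 j).2| := abs_pos.2 hρ
        have hcont : Tendsto (fun t => |(Gp j).eval t|) (𝓝 ρ) (𝓝 |(Gp j).eval ρ|) :=
          ((Gp j).continuous.abs).tendsto ρ
        simp only [eval_Gp] at hcont
        have h1 : ∀ᶠ t in 𝓝 ρ, |(fg ρ 1 j).2| / 2 < |(fg t 1 j).2| :=
          hcont.eventually (lt_mem_nhds (by linarith))
        refine ⟨{t | |(fg ρ 1 j).2| / 2 < |(fg t 1 j).2|}, mem_nhdsWithin_of_mem_nhds h1,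
          |(fg ρ 1 j).2| / 2, by positivity, ?_⟩
        intro x y hy hs hg
        have hs' : |(fg ρ 1 j).2| / 2 < |(fg ((x : ℝ) / y) 1 j).2| := hs
        have hy1 : (1 : ℝ) ≤ |(y : ℝ)| := by
          have : (1 : ℤ) ≤ |y| := Int.one_le_abs hy
          exact_mod_cast this
        have h3 : |(y : ℝ)| ^ (-(4 + ε)) ≤ 1 := Real.rpow_le_one_of_one_le_of_nonpos hy1 (by linarith)
        calc |(fg ρ 1 j).2| / 2 * |(y : ℝ)| ^ (-(4 + ε)) ≤ |(fg ρ 1 j).2| / 2 * 1 := by gcongr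
          _ ≤ _ := by linarith
  obtain ⟨c, hc, h⟩ := key
  exact ⟨c, hc, fun x y hy hM hg => h x y hy (abs_le.1 hM) hg⟩

/-- the lower bound for `g_j` at integers `X, Y`, not both zero -/
lemma g_lower (j : ℕ) (ε : ℝ) (hε : 0 < ε) : ∃ c : ℝ, 0 < c ∧
    ∀ x y : ℤ, y ≠ 0 → (fg x y j).2 ≠ 0 →
      c * (max |(x : ℝ)| |(y : ℝ)|) ^ ((dg j : ℝ) - 4 - ε) ≤ |((fg x y j).2 : ℝ)| := by
  obtain ⟨M, c1, hM, hc1, h1⟩ := fg_lower j
  obtain ⟨c2, hc2, h2⟩ := compact_lower j M ε hε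
  refine ⟨min c1 (c2 * M ^ (-(|(dg j : ℝ) - 4 - ε|))), lt_min hc1 (by positivity), ?_⟩
  intro x y hy hg
  have hy1 : (1 : ℝ) ≤ |(y : ℝ)| := by
    have : (1 : ℤ) ≤ |y| := Int.one_le_abs hy
    exact_mod_cast this
  have hy0 : (0 : ℝ) < |(y : ℝ)| := by linarith
  have hyR : (y : ℝ) ≠ 0 := by exact_mod_cast hy
  have hcast : ((fg x y j).2 : ℝ) = (fg (x : ℝ) (y : ℝ) j).2 := by
    have := fg_map (Int.castRingHom ℝ) x y j
    have := congrArg Prod.snd this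
    simpa using this.symm
  have hgR : (fg (x : ℝ) (y : ℝ) j).2 ≠ 0 := by
    rw [← hcast]; exact_mod_cast hg
  rw [hcast]
  set H := max |(x : ℝ)| |(y : ℝ)| with hH
  have hH1 : 1 ≤ H := hy1.trans (le_max_right _ _)
  have hH0 : 0 < H := by linarith
  rcases le_total (M * |(y : ℝ)|) |(x : ℝ)| with hcase | hcase
  · have hHx : H = |(x : ℝ)| := by
      rw [hH, max_eq_left]
      nlinarith
    have h3 := (h1 x y hcase).2
    rw [← hHx] at h3
    refine le_trans ?_ h3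
    apply mul_le_mul (min_le_left _ _) _ (by positivity) hc1.le
    rw [← Real.rpow_natCast]
    exact Real.rpow_le_rpow_of_exponent_le hH1 (by linarith)
  · have hxy : |(x : ℝ) / y| ≤ M := by
      rw [abs_div, div_le_iff₀ hy0]
      exact hcase
    have hhom : (fg (x : ℝ) (y : ℝ) j).2 = (y : ℝ) ^ dg j * (fg ((x : ℝ) / y) 1 j).2 := by
      have h3 := fg_homog (y : ℝ) ((x : ℝ) / y) 1 j
      rw [mul_div_cancel₀ _ hyR, mul_one] at h3
      rw [h3]
    have hg1 : (fg ((x : ℝ) / y) 1 j).2 ≠ 0 := by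
      intro h0
      rw [h0, mul_zero] at hhom
      exact hgR hhom
    have h3 := h2 x y hy hxy hg1
    rw [hhom, abs_mul, abs_pow]
    have hHM : H ≤ M * |(y : ℝ)| := max_le hcase (by nlinarith)
    have hyH : |(y : ℝ)| ≤ H := le_max_right _ _
    have hM0 : (0 : ℝ) < M := by linarith
    obtain ⟨E, hE⟩ : ∃ E : ℝ, E = (dg j : ℝ) - 4 - ε := ⟨_, rfl⟩
    rw [← hE]
    have h4 : M ^ (-|E|) * H ^ E ≤ |(y : ℝ)| ^ E := by
      rcases le_total 0 E with hE0 | hE0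
      · rw [abs_of_nonneg hE0, Real.rpow_neg hM0.le, inv_mul_le_iff₀ (by positivity),
          ← Real.mul_rpow hM0.le hy0.le]
        exact Real.rpow_le_rpow hH0.le hHM hE0
      · have h5 : H ^ E ≤ |(y : ℝ)| ^ E := Real.rpow_le_rpow_of_nonpos hy0 hyH hE0
        have h6 : M ^ (-|E|) ≤ 1 := Real.rpow_le_one_of_one_le_of_nonpos hM (by linarith [abs_nonneg E])
        calc M ^ (-|E|) * H ^ E ≤ 1 * |(y : ℝ)| ^ E :=
              mul_le_mul h6 h5 (by positivity) (by norm_num)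
          _ = _ := one_mul _
    have h5 : |(y : ℝ)| ^ E = |(y : ℝ)| ^ dg j * |(y : ℝ)| ^ (-(4 + ε)) := by
      rw [← Real.rpow_natCast, ← Real.rpow_add hy0, hE]
      congr 1
      ring
    calc min c1 (c2 * M ^ (-|E|)) * H ^ E ≤ (c2 * M ^ (-|E|)) * H ^ E :=
          mul_le_mul_of_nonneg_right (min_le_right _ _) (by positivity)
      _ = c2 * (M ^ (-|E|) * H ^ E) := by ring
      _ ≤ c2 * |(y : ℝ)| ^ E := mul_le_mul_of_nonneg_left h4 hc2.le
      _ = |(y : ℝ)| ^ dg j * (c2 * |(y : ℝ)| ^ (-(4 + ε))) := by rw [h5]; ring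
      _ ≤ _ := mul_le_mul_of_nonneg_left h3 (by positivity)

end Pool.Agent.K7.H71.Hall
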