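import Mathlib
import Pool.Agent.K7.H71.Hall.Roots
import Pool.Agent.K7.H71.Hall.Chain

/-!
Integral points in `2 ^ j E_k (ℚ)` with large coordinates, from the solutions of a Pell equation.
-/

set_option autoImplicit false

namespace Pool.Agent.K7.H71.Hall

open Filter Topology Polynomial

/-- solutions of `X ^ 2 + 20 X Y - 8 Y ^ 2 = 1` -/
def pell : ℕ → ℤ × ℤ
  | 0 => (51, 130)
  | n + 1 => (51 * (pell n).1 + 1040 * (pell n).2, 130 * (pell n).1 + 2651 * (pell n).2)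

lemma pell_eq (n : ℕ) : (pell n).1 ^ 2 + 20 * (pell n).1 * (pell n).2 - 8 * (pell n).2 ^ 2 = 1 := by
  induction n with
  | zero => norm_num [pell]
  | succ n ih =>
    simp only [pell]
    linear_combination ih

lemma pell_pos (n : ℕ) : 0 < (pell n).1 ∧ (n : ℤ) < (pell n).2 := by
  induction n with
  | zero => norm_num [pell]
  | succ n ih =>
    simp only [pell]
    obtain ⟨h1, h2⟩ := ih
    push_cast
    constructor <;> nlinarith

/-- `f_j ^ 3 X + g_j ^ 3 Y` is a square for `j ≥ 1` -/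
lemma S_succ {R : Type*} [CommRing R] (X Y : R) (j : ℕ) :
    X * (fg X Y (j + 1)).1 ^ 3 + Y * (fg X Y (j + 1)).2 ^ 3 =
      ((X * (fg X Y j).1 ^ 3) ^ 2 + 20 * (X * (fg X Y j).1 ^ 3) * (Y * (fg X Y j).2 ^ 3)
        - 8 * (Y * (fg X Y j).2 ^ 3) ^ 2) ^ 2 := by
  rw [fg_succ]
  simp only
  ring

/-- `g_j (X + Y)` is a square for `j ≥ 1` -/
lemma g_sq {R : Type*} [CommRing R] (X Y : R) (j : ℕ) :
    ∃ s : R, (fg X Y (j + 1)).2 * (X + Y) = s ^ 2 := by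
  induction j with
  | zero =>
    refine ⟨2 * (X + Y), ?_⟩
    rw [fg_succ, fg_zero]
    simp only
    ring
  | succ j ih =>
    obtain ⟨s, hs⟩ := ih
    have h := S_succ X Y j
    rw [fg_succ X Y (j + 1)]
    simp only
    rw [h]
    refine ⟨2 * s * ((X * (fg X Y j).1 ^ 3) ^ 2 + 20 * (X * (fg X Y j).1 ^ 3) * (Y * (fg X Y j).2 ^ 3)
        - 8 * (Y * (fg X Y j).2 ^ 3) ^ 2), ?_⟩
    linear_combination 4 * ((X * (fg X Y j).1 ^ 3) ^ 2 +
      20 * (X * (fg X Y j).1 ^ 3) * (Y * (fg X Y j).2 ^ 3) - 8 * (Y * (fg X Y j).2 ^ 3) ^ 2) ^ 2 * hs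

lemma irr108 (U V : ℤ) (h : U ^ 2 + 20 * U * V - 8 * V ^ 2 = 0) : V = 0 := by
  by_contra hV
  have h1 : (U + 10 * V) ^ 2 = 3 * (6 * V) ^ 2 := by linear_combination h
  have h3 : Irrational (√3) := by
    have := Nat.Prime.irrational_sqrt (show Nat.Prime 3 by norm_num)
    simpa using this
  have h6V : (6 * V : ℝ) ≠ 0 := by
    have : (V : ℝ) ≠ 0 := by exact_mod_cast hV
    positivity
  have h4 : (((U + 10 * V : ℤ) : ℝ) / ((6 * V : ℤ) : ℝ)) ^ 2 = 3 := by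
    have h1R : (((U + 10 * V : ℤ)) : ℝ) ^ 2 = 3 * ((6 * V : ℤ) : ℝ) ^ 2 := by exact_mod_cast h1
    have h6V' : ((6 * V : ℤ) : ℝ) ≠ 0 := by push_cast; exact h6V
    rw [div_pow, h1R]
    field_simp
  apply h3
  refine ⟨|((U + 10 * V : ℤ) : ℚ) / ((6 * V : ℤ) : ℚ)|, ?_⟩
  rw [Rat.cast_abs, Rat.cast_div, Rat.cast_intCast, Rat.cast_intCast]
  rw [← h4, Real.sqrt_sq_eq_abs]

/-- `g_j` does not vanish -/
lemma g_ne_zero (X Y : ℤ) (hY : Y ≠ 0) (hXY : X + Y ≠ 0) (j : ℕ) : (fg X Y j).2 ≠ 0 := by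
  induction j with
  | zero => simp [fg_zero]
  | succ j ih =>
    rw [fg_succ]
    simp only
    refine mul_ne_zero (mul_ne_zero (by norm_num) ih) ?_
    rcases j with _ | j
    · simpa [fg_zero] using hXY
    · rw [S_succ]
      apply pow_ne_zero
      intro h0
      have h1 := irr108 _ _ h0
      rcases mul_eq_zero.1 h1 with h2 | h2
      · exact hY h2
      · have h3 : (fg X Y j).2 = 0 := pow_eq_zero_iff (by norm_num) |>.1 h2
        apply ih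
        rw [fg_succ]
        simp [h3]

/-- the upper bound for `g_j` at the solutions of the Pell equation -/
lemma g_small (j : ℕ) : ∃ C : ℝ, 0 < C ∧ ∀ X Y : ℝ, 0 < X → X ≤ Y →
    X ^ 2 + 20 * X * Y - 8 * Y ^ 2 = 1 →
    |(fg X Y (j + 2)).2| * Y ^ 4 ≤ C * Y ^ dg (j + 2) := by
  induction j with
  | zero =>
    refine ⟨32, by norm_num, fun X Y hX hXY h => ?_⟩
    have e : (fg X Y (0 + 2)).2 = 16 * (X + Y) := by
      rw [zero_add, fg_succ X Y 1]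
      simp only
      rw [S_succ X Y 0, fg_succ X Y 0, fg_zero]
      simp only
      linear_combination 16 * (X + Y) * ((X ^ 2 + 20 * X * Y - 8 * Y ^ 2) + 1) * h
    have hd : dg (0 + 2) = 5 := rfl
    rw [e, hd, abs_of_pos (by linarith)]
    have hY4 : 0 ≤ Y ^ 4 := by positivity
    nlinarith
  | succ j ih =>
    obtain ⟨C, hC, h⟩ := ih
    obtain ⟨C', hC', hup⟩ := fg_upper (j + 2)
    refine ⟨8 * C * C' ^ 3, by positivity, fun X Y hX hXY hp => ?_⟩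
    have h1 := h X Y hX hXY hp
    have hY : 0 < Y := by linarith
    obtain ⟨h2, h3⟩ := hup X Y Y (by rw [abs_of_pos hX]; exact hXY) (by rw [abs_of_pos hY])
    rw [show j + 1 + 2 = (j + 2) + 1 from rfl, fg_succ, dg]
    simp only
    obtain ⟨f, hf⟩ : ∃ f, f = (fg X Y (j + 2)).1 := ⟨_, rfl⟩
    obtain ⟨g, hg⟩ : ∃ g, g = (fg X Y (j + 2)).2 := ⟨_, rfl⟩
    rw [← hg] at h1 h3
    rw [← hf] at h2
    rw [← hf, ← hg]
    obtain ⟨T, hT⟩ : ∃ T, T = Y ^ dg (j + 2) := ⟨_, rfl⟩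
    have hT0 : 0 < T := by rw [hT]; positivity
    rw [← hT] at h1 h2 h3
    have e1 : Y ^ (4 * dg (j + 2) + 1) = Y * T ^ 4 := by rw [hT, pow_succ, pow_mul']; ring
    rw [e1, abs_mul, abs_mul]
    have h4 : |X * f ^ 3 + Y * g ^ 3| ≤ 2 * (Y * (C' * T) ^ 3) := by
      have h5 : |X * f ^ 3| ≤ Y * (C' * T) ^ 3 := by
        rw [abs_mul, abs_pow, abs_of_pos hX]
        exact mul_le_mul hXY (pow_le_pow_left₀ (abs_nonneg _) h2 3) (by positivity) hY.le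
      have h6 : |Y * g ^ 3| ≤ Y * (C' * T) ^ 3 := by
        rw [abs_mul, abs_pow, abs_of_pos hY]
        exact mul_le_mul_of_nonneg_left (pow_le_pow_left₀ (abs_nonneg _) h3 3) hY.le
      have := abs_add_le (X * f ^ 3) (Y * g ^ 3)
      linarith
    have e4 : |(4 : ℝ)| = 4 := abs_of_pos (by norm_num)
    rw [e4]
    calc 4 * |g| * |X * f ^ 3 + Y * g ^ 3| * Y ^ 4 = 4 * (|g| * Y ^ 4) * |X * f ^ 3 + Y * g ^ 3| := by
          ring
      _ ≤ 4 * (C * T) * (2 * (Y * (C' * T) ^ 3)) := by gcongr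
      _ = _ := by ring

/-- the limit of `X / Y` at the solutions of the Pell equation -/
noncomputable def rho : ℝ := -10 + √108

lemma rho_root (j : ℕ) : (fg rho 1 (j + 2)).2 = 0 := by
  have h : rho ^ 2 + 20 * rho - 8 = 0 := by
    have h1 : (√108 : ℝ) ^ 2 = 108 := Real.sq_sqrt (by norm_num)
    rw [rho]
    linear_combination h1
  induction j with
  | zero =>
    rw [zero_add, fg_succ rho 1 1]
    simp only
    rw [S_succ rho 1 0, fg_zero]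
    simp only
    have : (rho * 1 ^ 3) ^ 2 + 20 * (rho * 1 ^ 3) * (1 * 1 ^ 3) - 8 * (1 * 1 ^ 3) ^ 2 = 0 := by
      linear_combination h
    rw [this]
    ring
  | succ j ih =>
    rw [show j + 1 + 2 = (j + 2) + 1 from rfl, fg_succ]
    simp only
    rw [ih]
    ring

lemma rho_pos : 0 < rho := by
  have h1 : (√108 : ℝ) ^ 2 = 108 := Real.sq_sqrt (by norm_num)
  have h2 : 0 ≤ √(108 : ℝ) := Real.sqrt_nonneg _
  rw [rho]
  nlinarith

/-- lower bound for `f_j` at the solutions of the Pell equation -/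
lemma f_large (j : ℕ) : ∃ c : ℝ, 0 < c ∧ ∃ N : ℝ, ∀ X Y : ℝ, 0 < X → N ≤ Y → 1 ≤ Y →
    X ^ 2 + 20 * X * Y - 8 * Y ^ 2 = 1 → c * Y ^ dg (j + 2) ≤ |(fg X Y (j + 2)).1| := by
  have hF : (fg rho 1 (j + 2)).1 ≠ 0 := by
    intro h
    exact fg_no_common rho rho_pos.ne' (j + 2) ⟨h, rho_root j⟩
  have hpos : 0 < |(fg rho 1 (j + 2)).1| := abs_pos.2 hF
  have hcont : Tendsto (fun t => |(Fp (j + 2)).eval t|) (𝓝 rho) (𝓝 |(Fp (j + 2)).eval rho|) :=
    ((Fp (j + 2)).continuous.abs).tendsto rho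
  simp only [eval_Fp] at hcont
  have h1 : ∀ᶠ t in 𝓝 rho, |(fg rho 1 (j + 2)).1| / 2 < |(fg t 1 (j + 2)).1| :=
    hcont.eventually (lt_mem_nhds (by linarith))
  rw [Metric.eventually_nhds_iff] at h1
  obtain ⟨δ, hδ, h1⟩ := h1
  refine ⟨|(fg rho 1 (j + 2)).1| / 2, by positivity, 2 / δ, ?_⟩
  intro X Y hX hN hY hp
  have hY0 : 0 < Y := by linarith
  have hdist : dist (X / Y) rho < δ := by
    rw [Real.dist_eq]
    have h2 : (√108 : ℝ) ^ 2 = 108 := Real.sq_sqrt (by norm_num)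
    have h3 : 0 ≤ √(108 : ℝ) := Real.sqrt_nonneg _
    have e1 : (X / Y - rho) * (X / Y + 10 + √108) = 1 / Y ^ 2 := by
      rw [rho]
      have : (X / Y - (-10 + √108)) * (X / Y + 10 + √108) = (X / Y + 10) ^ 2 - (√108) ^ 2 := by ring
      rw [this, h2]
      field_simp
      linear_combination hp
    have h4 : 10 ≤ X / Y + 10 + √108 := by
      have : 0 ≤ X / Y := by positivity
      linarith
    have e2 : |X / Y - rho| * (X / Y + 10 + √108) = 1 / Y ^ 2 := by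
      rw [← e1, abs_of_pos]
      by_contra hcon
      push Not at hcon
      have : (X / Y - rho) * (X / Y + 10 + √108) ≤ 0 :=
        mul_nonpos_of_nonpos_of_nonneg hcon (by linarith)
      rw [e1] at this
      have : 0 < 1 / Y ^ 2 := by positivity
      linarith
    have h5 : |X / Y - rho| ≤ 1 / Y := by
      have h6 : 1 / Y ^ 2 ≤ 1 / Y := by
        rw [div_le_div_iff₀ (by positivity) hY0]
        nlinarith
      have h7 : |X / Y - rho| * 10 ≤ |X / Y - rho| * (X / Y + 10 + √108) :=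
        mul_le_mul_of_nonneg_left h4 (abs_nonneg _)
      have h8 := abs_nonneg (X / Y - rho)
      linarith
    have h6 : 1 / Y < δ := by
      have h7 : 2 ≤ Y * δ := by
        rw [div_le_iff₀ hδ] at hN
        exact hN
      rw [div_lt_iff₀ hY0]
      linarith
    linarith
  have h2 := h1 hdist
  have hhom : (fg X Y (j + 2)).1 = Y ^ dg (j + 2) * (fg (X / Y) 1 (j + 2)).1 := by
    have h3 := fg_homog Y (X / Y) 1 (j + 2)
    rw [mul_div_cancel₀ _ hY0.ne', mul_one] at h3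
    rw [h3]
  rw [hhom, abs_mul, abs_of_pos (by positivity : 0 < Y ^ dg (j + 2)), mul_comm]
  exact mul_le_mul_of_nonneg_left h2.le (by positivity)

/-- a rational number whose square is an integer is an integer -/
lemma int_of_sq (m : ℤ) (y : ℚ) (h : y ^ 2 = m) : ∃ n : ℤ, (n : ℚ) = y := by
  have hm : (X ^ 2 + C (-m) : ℤ[X]).Monic := by
    apply monic_X_pow_add
    compute_degree
    norm_num
  have hr : aeval y (X ^ 2 + C (-m) : ℤ[X]) = 0 := by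
    simp only [map_add, map_pow, aeval_X, aeval_C]
    simp only [algebraMap_int_eq, eq_intCast]
    push_cast
    linear_combination h
  obtain ⟨a, ha⟩ := isInteger_of_is_root_of_monic hm hr
  exact ⟨a, by simpa using ha⟩

/-- the points -/
lemma points (j : ℕ) (X Y : ℤ) (hX : 0 < X) (hY : 0 < Y) :
    ∃ k x y : ℤ, k = X ^ 2 * (fg X Y (j + 1)).2 ^ 3 * Y ∧ x = X * (fg X Y (j + 1)).1 ∧
      0 < (fg X Y (j + 1)).2 ∧ 0 < k ∧
      ∃ (Q : (Cv k).Point) (h : (Cv k).Nonsingular (x : ℚ) (y : ℚ)),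
        (2 : ℕ) ^ (j + 1) • Q = WeierstrassCurve.Affine.Point.some (x : ℚ) (y : ℚ) h := by
  have hg := g_ne_zero X Y hY.ne' (by positivity) (j + 1)
  obtain ⟨s, hs⟩ := g_sq X Y j
  obtain ⟨G, hG⟩ : ∃ G, G = (fg X Y (j + 1)).2 := ⟨_, rfl⟩
  obtain ⟨F, hF⟩ : ∃ F, F = (fg X Y (j + 1)).1 := ⟨_, rfl⟩
  have hGF : fg X Y (j + 1) = (F, G) := by rw [hF, hG]
  rw [hGF] at hg hs
  simp only at hg hs
  have hG0 : 0 < G := by
    have h1 : 0 ≤ G * (X + Y) := by rw [hs]; positivity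
    rcases lt_trichotomy G 0 with h | h | h
    · nlinarith
    · exact absurd h hg
    · exact h
  obtain ⟨k, hk⟩ : ∃ k, k = X ^ 2 * G ^ 3 * Y := ⟨_, rfl⟩
  have hk0 : 0 < k := by rw [hk]; positivity
  have hcurve : ((X * G * s : ℤ) : ℚ) ^ 2 = ((X * G : ℤ) : ℚ) ^ 3 + k := by
    have : (X * G * s) ^ 2 = (X * G) ^ 3 + k := by
      rw [hk]
      linear_combination (-X ^ 2 * G ^ 2) * hs
    exact_mod_cast this
  have h0 : (Cv k).Nonsingular ((X * G : ℤ) : ℚ) ((X * G * s : ℤ) : ℚ) :=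
    Cv_nonsingular k hk0.ne' hcurve
  have hfg : fg ((X * G) ^ 3) k (j + 1) =
      ((X ^ 2 * G ^ 3) ^ dg (j + 1) * F, (X ^ 2 * G ^ 3) ^ dg (j + 1) * G) := by
    have := fg_homog (X ^ 2 * G ^ 3) X Y (j + 1)
    rw [hGF] at this
    rw [← this, hk]
    congr 1
    ring
  have hcpos : (0 : ℤ) < (X ^ 2 * G ^ 3) ^ dg (j + 1) := by positivity
  have hne : (fg ((X * G) ^ 3) k (j + 1)).2 ≠ 0 := by
    rw [hfg]
    exact (mul_pos hcpos hG0).ne'
  obtain ⟨x, y, h, hQ, hrel⟩ := chain_up k (X * G) _ h0 (j + 1) hne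
  rw [hfg] at hrel
  have hx : x = ((X * F : ℤ) : ℚ) := by
    have hc0 : (((X ^ 2 * G ^ 3) ^ dg (j + 1) * G : ℤ) : ℚ) ≠ 0 := by
      exact_mod_cast (mul_pos hcpos hG0).ne'
    have : x * (((X ^ 2 * G ^ 3) ^ dg (j + 1) * G : ℤ) : ℚ) =
        ((X * F : ℤ) : ℚ) * (((X ^ 2 * G ^ 3) ^ dg (j + 1) * G : ℤ) : ℚ) := by
      rw [hrel]
      push_cast
      ring
    exact mul_right_cancel₀ hc0 this
  subst hx
  have hy := Cv_eq k h
  obtain ⟨n, hn⟩ := int_of_sq ((X * F) ^ 3 + k) y (by rw [hy]; push_cast; ring)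
  subst hn
  exact ⟨k, X * F, n, by rw [hk, hG], by rw [hF], by rw [← hG]; exact hG0, hk0, _, h, hQ⟩

/-- the lower bound -/
lemma lower (j : ℕ) : ∃ c : ℝ, 0 < c ∧ ∀ N : ℝ, ∃ k x y : ℤ, N ≤ k ∧ 0 < k ∧
    (∃ (Q : (Cv k).Point) (h : (Cv k).Nonsingular (x : ℚ) (y : ℚ)),
      (2 : ℕ) ^ (j + 2) • Q = WeierstrassCurve.Affine.Point.some (x : ℚ) (y : ℚ) h) ∧
    c * (k : ℝ) ^ (1 / 3 + 4 / ((4 : ℝ) ^ (j + 2) - 10)) ≤ |(x : ℝ)| := by
  obtain ⟨C, hC, hsmall⟩ := g_small j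
  obtain ⟨c, hc, N0, hlarge⟩ := f_large j
  have hD : 5 ≤ dg (j + 2) := by
    have h1 := dg_eq (j + 2)
    have h2 : 4 ^ 2 ≤ 4 ^ (j + 2) := Nat.pow_le_pow_right (by norm_num) (by omega)
    omega
  have hDR : (5 : ℝ) ≤ dg (j + 2) := by exact_mod_cast hD
  have h4j : (4 : ℝ) ^ (j + 2) = 3 * (dg (j + 2) : ℝ) + 1 := by
    have := dg_eq (j + 2)
    exact_mod_cast this.symm
  obtain ⟨D, hDdef⟩ : ∃ D : ℝ, D = dg (j + 2) := ⟨_, rfl⟩
  rw [← hDdef] at hDR h4j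
  obtain ⟨α, hα⟩ : ∃ α : ℝ, α = 1 / 3 + 4 / ((4 : ℝ) ^ (j + 2) - 10) := ⟨_, rfl⟩
  have hα2 : (3 * D - 9) * α = D + 1 := by
    rw [hα, h4j]
    have : 3 * D + 1 - 10 ≠ 0 := by
      intro h; linarith
    field_simp
    ring
  have hα0 : 0 < α := by
    rw [hα, h4j]
    have : 0 < 3 * D + 1 - 10 := by linarith
    positivity
  refine ⟨c / 3 / (C ^ 3) ^ α, by positivity, ?_⟩
  intro N
  obtain ⟨n, hn⟩ := exists_nat_ge (max N (max N0 0))
  obtain ⟨hX, hYn⟩ := pell_pos n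
  have hp := pell_eq n
  obtain ⟨X, hXd⟩ : ∃ X, X = (pell n).1 := ⟨_, rfl⟩
  obtain ⟨Y, hYd⟩ : ∃ Y, Y = (pell n).2 := ⟨_, rfl⟩
  rw [← hXd, ← hYd] at hp
  rw [← hXd] at hX
  rw [← hYd] at hYn
  have hY : 0 < Y := by omega
  obtain ⟨k, x, y, hk, hx, hG0, hk0, hQ⟩ := points (j + 1) X Y hX hY
  have hXR : (0 : ℝ) < X := by exact_mod_cast hX
  have hX1 : (1 : ℝ) ≤ X := by exact_mod_cast hX
  have hYR : (0 : ℝ) < Y := by exact_mod_cast hY
  have hY1 : (1 : ℝ) ≤ Y := by exact_mod_cast hY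
  have hYnR : (n : ℝ) ≤ Y := by exact_mod_cast hYn.le
  have hpR : (X : ℝ) ^ 2 + 20 * X * Y - 8 * Y ^ 2 = 1 := by exact_mod_cast hp
  have hXY : (X : ℝ) ≤ Y := by nlinarith
  have hYX : (Y : ℝ) ≤ 3 * X := by nlinarith
  have hN0 : N0 ≤ (Y : ℝ) := ((le_max_left _ _).trans (le_max_right _ _)).trans (hn.trans hYnR)
  have hNY : N ≤ (Y : ℝ) := (le_max_left _ _).trans (hn.trans hYnR)
  have h1 := hsmall X Y hXR hXY hpR
  have h2 := hlarge X Y hXR hN0 hY1 hpR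
  have hcast1 : ((fg X Y (j + 2)).1 : ℝ) = (fg (X : ℝ) (Y : ℝ) (j + 2)).1 := by
    have := congrArg Prod.fst (fg_map (Int.castRingHom ℝ) X Y (j + 2))
    simpa using this.symm
  have hcast2 : ((fg X Y (j + 2)).2 : ℝ) = (fg (X : ℝ) (Y : ℝ) (j + 2)).2 := by
    have := congrArg Prod.snd (fg_map (Int.castRingHom ℝ) X Y (j + 2))
    simpa using this.symm
  rw [show j + 1 + 1 = j + 2 from rfl] at hk hx hG0
  obtain ⟨F, hF⟩ : ∃ F : ℤ, F = (fg X Y (j + 2)).1 := ⟨_, rfl⟩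
  obtain ⟨G, hG⟩ : ∃ G : ℤ, G = (fg X Y (j + 2)).2 := ⟨_, rfl⟩
  rw [← hF] at hcast1 hx
  rw [← hG] at hcast2 hk hG0
  rw [← hcast2] at h1
  rw [← hcast1] at h2
  have hGR : (0 : ℝ) < G := by exact_mod_cast hG0
  have hG1 : (1 : ℝ) ≤ G := by exact_mod_cast hG0
  rw [abs_of_pos hGR] at h1
  have hkR : (k : ℝ) = X ^ 2 * G ^ 3 * Y := by rw [hk]; push_cast; ring
  have hkpos : (0 : ℝ) < k := by exact_mod_cast hk0
  refine ⟨k, x, y, ?_, hk0, hQ, ?_⟩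
  · rw [hkR]
    have e1 : (1 : ℝ) ≤ (X : ℝ) ^ 2 * G ^ 3 := by
      have := one_le_pow₀ hX1 (n := 2)
      have := one_le_pow₀ hG1 (n := 3)
      nlinarith
    nlinarith
  · rw [← hα]
    have hkb : (k : ℝ) ≤ C ^ 3 * (Y : ℝ) ^ (3 * D - 9) := by
      have e1 : (k : ℝ) * Y ^ 12 ≤ C ^ 3 * (Y ^ dg (j + 2)) ^ 3 * Y ^ 3 := by
        calc (k : ℝ) * Y ^ 12 = X ^ 2 * (G * Y ^ 4) ^ 3 * Y := by rw [hkR]; ring
          _ ≤ Y ^ 2 * (C * Y ^ dg (j + 2)) ^ 3 * Y := by gcongr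
          _ = _ := by ring
      have e2 : C ^ 3 * ((Y : ℝ) ^ dg (j + 2)) ^ 3 * Y ^ 3 = C ^ 3 * (Y : ℝ) ^ (3 * D - 9) * Y ^ 12 := by
        have e3 : ((Y : ℝ) ^ dg (j + 2)) ^ 3 * Y ^ 3 = (Y : ℝ) ^ (3 * D - 9) * Y ^ 12 := by
          rw [hDdef, ← pow_mul, ← pow_add, ← Real.rpow_natCast, ← Real.rpow_natCast,
            ← Real.rpow_add hYR]
          congr 1
          push_cast
          ring
        rw [mul_assoc, e3, mul_assoc]
      rw [e2] at e1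
      exact le_of_mul_le_mul_right e1 (by positivity)
    have hxb : c / 3 * (Y : ℝ) ^ (D + 1) ≤ |(x : ℝ)| := by
      have e1 : |(x : ℝ)| = X * |(F : ℝ)| := by
        rw [hx]; push_cast; rw [abs_mul, abs_of_pos hXR]
      rw [e1, Real.rpow_add hYR, Real.rpow_one, hDdef, Real.rpow_natCast]
      calc c / 3 * ((Y : ℝ) ^ dg (j + 2) * Y) = (Y / 3) * (c * (Y : ℝ) ^ dg (j + 2)) := by ring
        _ ≤ X * |(F : ℝ)| := mul_le_mul (by linarith) h2 (by positivity) hXR.le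
    have h3 : (k : ℝ) ^ α ≤ (C ^ 3) ^ α * (Y : ℝ) ^ (D + 1) := by
      calc (k : ℝ) ^ α ≤ (C ^ 3 * (Y : ℝ) ^ (3 * D - 9)) ^ α :=
            Real.rpow_le_rpow hkpos.le hkb hα0.le
        _ = _ := by
            rw [Real.mul_rpow (by positivity) (by positivity), ← Real.rpow_mul hYR.le, hα2]
    calc c / 3 / (C ^ 3) ^ α * (k : ℝ) ^ α ≤ c / 3 / (C ^ 3) ^ α * ((C ^ 3) ^ α * (Y : ℝ) ^ (D + 1)) := by
          gcongr
      _ = c / 3 * (Y : ℝ) ^ (D + 1) := by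
          field_simp
      _ ≤ _ := hxb

end Pool.Agent.K7.H71.Hall
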