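import Mathlib
import Pool.Agent.K7.H71.Hall.Roots
import Pool.Agent.K7.H71.Hall.Chain

/-!
The upper bound for the integral points of `y ^ 2 = x ^ 3 + k` in `2 ^ j E_k (ℚ)`.
-/

set_option autoImplicit false

namespace Pool.Agent.K7.H71.Hall

/-- if `x g_j = a f_j` at coprime `X, Y` with `a ^ 3 = g X`, then `g_j ^ 3` divides a constant times
`g` -/
lemma cube_dvd (j : ℕ) : ∃ R : ℤ, 0 < R ∧ ∀ X Y g a x : ℤ, IsCoprime X Y → a ^ 3 = g * X →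
    x * (fg X Y j).2 = a * (fg X Y j).1 → (fg X Y j).2 ^ 3 ∣ R * g := by
  obtain ⟨R, hR, h⟩ := gcd_bound j
  refine ⟨R ^ 3 * (4 ^ dg j) ^ 3, by positivity, ?_⟩
  intro X Y g a x hXY ha hx
  have h1 : (fg X Y j).2 ∣ R * a := by
    have e1 : (fg X Y j).2 ∣ a * (fg X Y j).1 := ⟨x, by rw [← hx]; ring⟩
    have e2 : (fg X Y j).2 ∣ gcd (a * (fg X Y j).1) (a * (fg X Y j).2) :=
      dvd_gcd e1 (dvd_mul_left _ _)
    have e3 : gcd (a * (fg X Y j).1) (a * (fg X Y j).2) ∣ a * gcd (fg X Y j).1 (fg X Y j).2 :=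
      (gcd_mul_left' _ _ _).dvd
    have e4 : gcd (fg X Y j).1 (fg X Y j).2 ∣ R :=
      h X Y hXY _ (gcd_dvd_left _ _) (gcd_dvd_right _ _)
    have e5 := e2.trans (e3.trans (mul_dvd_mul_left a e4))
    rwa [mul_comm] at e5
  obtain ⟨G, hG⟩ : ∃ G, G = (fg X Y j).2 := ⟨_, rfl⟩
  rw [← hG] at h1 ⊢
  have h2 : G ^ 3 ∣ R ^ 3 * g * X := by
    have := pow_dvd_pow_of_dvd h1 3
    rw [mul_pow, ha, ← mul_assoc] at this
    exact this
  -- the ideal generated by `G` and `X` contains `4 ^ D`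
  obtain ⟨w, hw⟩ := g_mod_X X Y j
  rw [← hG] at hw
  obtain ⟨u, v, huv⟩ : IsCoprime X (Y ^ dg j) := IsCoprime.pow_right hXY
  have h3 : (4 ^ dg j : ℤ) = v * G + (4 ^ dg j * u - v * w) * X := by
    linear_combination (-v) * hw - 4 ^ dg j * huv
  obtain ⟨t, ht⟩ : ∃ t, t = 4 ^ dg j * u - v * w := ⟨_, rfl⟩
  rw [← ht] at h3
  have h4 : R ^ 3 * (4 ^ dg j) ^ 3 * g = G ^ 3 * (R ^ 3 * g * v ^ 3) +
      (R ^ 3 * g * X) * (3 * v ^ 2 * G ^ 2 * t + 3 * v * G * t ^ 2 * X + t ^ 3 * X ^ 2) := by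
    rw [h3]; ring
  rw [h4]
  exact dvd_add (dvd_mul_right _ _) (h2.mul_right _)

/-- the reduction to coprime arguments -/
lemma reduce (j : ℕ) (k : ℤ) (hk : k ≠ 0) (a x : ℤ) (h1 : (fg (a ^ 3) k j).2 ≠ 0)
    (h2 : x * (fg (a ^ 3) k j).2 = a * (fg (a ^ 3) k j).1) :
    ∃ X Y g : ℤ, 0 < g ∧ IsCoprime X Y ∧ a ^ 3 = g * X ∧ k = g * Y ∧ (fg X Y j).2 ≠ 0 ∧
      x * (fg X Y j).2 = a * (fg X Y j).1 := by
  have hpos : 0 < Int.gcd (a ^ 3) k := Int.gcd_pos_of_ne_zero_right _ hk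
  obtain ⟨X, Y, hXY, hX, hY⟩ := Int.exists_gcd_one hpos
  obtain ⟨g, hg⟩ : ∃ g : ℤ, g = (Int.gcd (a ^ 3) k : ℤ) := ⟨_, rfl⟩
  have hg0 : 0 < g := by rw [hg]; exact_mod_cast hpos
  rw [← hg] at hX hY
  have e := fg_homog g X Y j
  rw [hX, hY] at h1 h2
  rw [mul_comm X g, mul_comm Y g, e] at h1 h2
  simp only at h1 h2
  have hgD : g ^ dg j ≠ 0 := pow_ne_zero _ hg0.ne'
  refine ⟨X, Y, g, hg0, Int.isCoprime_iff_gcd_eq_one.2 hXY, by rw [hX]; ring, by rw [hY]; ring, ?_, ?_⟩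
  · intro h0
    rw [h0, mul_zero] at h1
    exact h1 rfl
  · have : g ^ dg j * (x * (fg X Y j).2) = g ^ dg j * (a * (fg X Y j).1) := by
      linear_combination h2
    exact mul_left_cancel₀ hgD this

/-- the bound for the `x`-coordinate -/
lemma x_bound (j : ℕ) (hj : 3 ≤ j) (ε : ℝ) (hε : 0 < ε) : ∃ C : ℝ, 1 ≤ C ∧
    ∀ k x a : ℤ, k ≠ 0 → (fg (a ^ 3) k j).2 ≠ 0 →
      x * (fg (a ^ 3) k j).2 = a * (fg (a ^ 3) k j).1 →
      |(x : ℝ)| ≤ C * |(k : ℝ)| ^ (1 / 3 + 4 / ((4 : ℝ) ^ j - 12) + ε) := by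
  have hD : 21 ≤ dg j := by
    have h1 := dg_eq j
    have h2 : 4 ^ 3 ≤ 4 ^ j := Nat.pow_le_pow_right (by norm_num) hj
    omega
  have hDR : (21 : ℝ) ≤ dg j := by exact_mod_cast hD
  have h4j : (4 : ℝ) ^ j = 3 * (dg j : ℝ) + 1 := by
    have := dg_eq j
    exact_mod_cast this.symm
  obtain ⟨ε0, hε0⟩ : ∃ ε0 : ℝ, ε0 = min ε 1 := ⟨_, rfl⟩
  have hε01 : ε0 ≤ 1 := hε0 ▸ min_le_right _ _
  have hε02 : ε0 ≤ ε := hε0 ▸ min_le_left _ _
  have hε03 : 0 < ε0 := hε0 ▸ lt_min hε one_pos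
  obtain ⟨R, hR, hdvd⟩ := cube_dvd j
  obtain ⟨c, hc, hlow⟩ := g_lower j ε0 hε03
  obtain ⟨C, hC, hup⟩ := fg_upper j
  obtain ⟨M, c1, hM, hc1, hfar⟩ := fg_lower j
  have hRR : (0 : ℝ) < R := by exact_mod_cast hR
  have hM0 : (0 : ℝ) < M := by linarith
  have hC0 : (0 : ℝ) < C := by linarith
  obtain ⟨e, he⟩ : ∃ e : ℝ, e = (dg j : ℝ) - 4 - ε0 := ⟨_, rfl⟩
  have he16 : 16 ≤ e := by rw [he]; linarith
  obtain ⟨τ, hτ⟩ : ∃ τ : ℝ, τ = (4 + ε0) / (3 * e + 1) := ⟨_, rfl⟩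
  have hτ0 : 0 < τ := by rw [hτ]; positivity
  have hτle : 1 / 3 + τ ≤ 1 / 3 + 4 / ((4 : ℝ) ^ j - 12) + ε := by
    have h1 : τ ≤ 4 / ((4 : ℝ) ^ j - 12) + ε0 := by
      rw [hτ, h4j, he]
      have hP : (52 : ℝ) ≤ 3 * (dg j : ℝ) + 1 - 12 := by linarith
      obtain ⟨P, hPd⟩ : ∃ P : ℝ, P = 3 * (dg j : ℝ) + 1 - 12 := ⟨_, rfl⟩
      have e1 : 3 * ((dg j : ℝ) - 4 - ε0) + 1 = P - 3 * ε0 := by rw [hPd]; ring
      rw [e1, ← hPd]
      rw [← hPd] at hP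
      rw [div_add' _ _ _ (by linarith : P ≠ 0), div_le_div_iff₀ (by linarith) (by linarith)]
      nlinarith [mul_pos hε03 (by linarith : (0 : ℝ) < P), mul_pos hε03 hε03,
        mul_nonneg (mul_nonneg hε03.le (by linarith : (0 : ℝ) ≤ P)) (by linarith : (0 : ℝ) ≤ P - 52),
        mul_nonneg (mul_nonneg hε03.le (by linarith : (0 : ℝ) ≤ P)) (by linarith : (0 : ℝ) ≤ 1 - ε0)]
    linarith
  -- the constants
  obtain ⟨B1, hB1⟩ : ∃ B1 : ℝ, B1 = C / c * (M ^ (1 / 3 : ℝ) * (R * M / c ^ 3) ^ τ) := ⟨_, rfl⟩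
  obtain ⟨B2, hB2⟩ : ∃ B2 : ℝ, B2 = C / c1 * ((R / c1 ^ 3) ^ (1 / (9 * (dg j : ℝ)))) := ⟨_, rfl⟩
  refine ⟨max 1 (max B1 B2), le_max_left _ _, ?_⟩
  intro k x a hk hg hx
  have hK : (1 : ℝ) ≤ |(k : ℝ)| := by
    have : (1 : ℤ) ≤ |k| := Int.one_le_abs hk
    exact_mod_cast this
  obtain ⟨K, hKd⟩ : ∃ K : ℝ, K = |(k : ℝ)| := ⟨_, rfl⟩
  rw [← hKd] at hK ⊢
  have hK0 : 0 < K := by linarith
  obtain ⟨X, Y, g, hg0, hXY, hX, hY, hg1, hx1⟩ := reduce j k hk a x hg hx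
  have hY0 : Y ≠ 0 := by
    rintro rfl
    rw [mul_zero] at hY
    exact hk hY
  have hgR : (0 : ℝ) < g := by exact_mod_cast hg0
  have hY1 : (1 : ℝ) ≤ |(Y : ℝ)| := by
    have : (1 : ℤ) ≤ |Y| := Int.one_le_abs hY0
    exact_mod_cast this
  have h3 := hdvd X Y g a x hXY hX hx1
  have h4 := hlow X Y hY0 hg1
  rw [← he] at h4
  -- casts
  have hcast1 : ((fg X Y j).1 : ℝ) = (fg (X : ℝ) (Y : ℝ) j).1 := by
    have := congrArg Prod.fst (fg_map (Int.castRingHom ℝ) X Y j)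
    simpa using this.symm
  have hcast2 : ((fg X Y j).2 : ℝ) = (fg (X : ℝ) (Y : ℝ) j).2 := by
    have := congrArg Prod.snd (fg_map (Int.castRingHom ℝ) X Y j)
    simpa using this.symm
  obtain ⟨F, hF⟩ : ∃ F : ℤ, F = (fg X Y j).1 := ⟨_, rfl⟩
  obtain ⟨G, hG⟩ : ∃ G : ℤ, G = (fg X Y j).2 := ⟨_, rfl⟩
  rw [← hG] at hg1 h3 h4 hcast2
  rw [← hF] at hcast1
  rw [← hF, ← hG] at hx1
  have hG1 : (1 : ℝ) ≤ |(G : ℝ)| := by
    have : (1 : ℤ) ≤ |G| := Int.one_le_abs hg1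
    exact_mod_cast this
  have h5 : |(G : ℝ)| ^ 3 ≤ R * g := by
    have h6 : |G ^ 3| ≤ R * g := by
      have : |G ^ 3| ≤ |R * g| := by
        rw [Int.abs_eq_natAbs, Int.abs_eq_natAbs]
        have h7 : (G ^ 3).natAbs ≤ (R * g).natAbs :=
          Nat.le_of_dvd (Int.natAbs_pos.2 (by positivity)) (Int.natAbs_dvd_natAbs.2 h3)
        exact_mod_cast h7
      rwa [abs_of_pos (by positivity : (0 : ℤ) < R * g)] at this
    rw [← abs_pow]
    exact_mod_cast h6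
  have hKg : K = g * |(Y : ℝ)| := by
    rw [hKd, hY]; push_cast; rw [abs_mul, abs_of_pos hgR]
  have hA : |(a : ℝ)| ^ 3 = g * |(X : ℝ)| := by
    have : (a : ℝ) ^ 3 = g * X := by exact_mod_cast hX
    rw [← abs_pow, this, abs_mul, abs_of_pos hgR]
  have hxG : |(x : ℝ)| * |(G : ℝ)| = |(a : ℝ)| * |(F : ℝ)| := by
    rw [← abs_mul, ← abs_mul]
    congr 1
    exact_mod_cast hx1
  obtain ⟨H, hH⟩ : ∃ H : ℝ, H = max |(X : ℝ)| |(Y : ℝ)| := ⟨_, rfl⟩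
  rw [← hH] at h4
  have hHX : |(X : ℝ)| ≤ H := hH ▸ le_max_left _ _
  have hHY : |(Y : ℝ)| ≤ H := hH ▸ le_max_right _ _
  have hH1 : 1 ≤ H := hY1.trans hHY
  have hH0 : 0 < H := by linarith
  have hF1 : |(F : ℝ)| ≤ C * H ^ dg j := by
    rw [hcast1]; exact (hup X Y H hHX hHY).1
  have ha0 : (0 : ℝ) ≤ |(a : ℝ)| := abs_nonneg _
  have hx0 : (0 : ℝ) ≤ |(x : ℝ)| := abs_nonneg _
  rcases le_total (M * |(Y : ℝ)|) |(X : ℝ)| with hcase | hcase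
  · -- `X` dominates
    have hHX' : H = |(X : ℝ)| := by
      rw [hH, max_eq_left]
      nlinarith
    have hG2 : c1 * H ^ dg j ≤ |(G : ℝ)| := by
      rw [hcast2, hHX']; exact (hfar X Y hcase).2
    have hx2 : |(x : ℝ)| ≤ C / c1 * |(a : ℝ)| := by
      rw [div_mul_eq_mul_div, le_div_iff₀ hc1]
      have h6 : |(x : ℝ)| * (c1 * H ^ dg j) ≤ |(a : ℝ)| * (C * H ^ dg j) := by
        calc |(x : ℝ)| * (c1 * H ^ dg j) ≤ |(x : ℝ)| * |(G : ℝ)| := mul_le_mul_of_nonneg_left hG2 hx0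
          _ = |(a : ℝ)| * |(F : ℝ)| := hxG
          _ ≤ _ := mul_le_mul_of_nonneg_left hF1 ha0
      have hHD : 0 < H ^ dg j := by positivity
      have h7 : (|(x : ℝ)| * c1) * H ^ dg j ≤ (C * |(a : ℝ)|) * H ^ dg j := by linarith
      exact le_of_mul_le_mul_right h7 hHD
    have hgK : (g : ℝ) ≤ K := by rw [hKg]; nlinarith
    have hHb : H ^ (3 * (dg j : ℝ)) ≤ R / c1 ^ 3 * K := by
      have h6 : (c1 * H ^ dg j) ^ 3 ≤ R * K := by
        calc (c1 * H ^ dg j) ^ 3 ≤ |(G : ℝ)| ^ 3 := pow_le_pow_left₀ (by positivity) hG2 3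
          _ ≤ R * g := h5
          _ ≤ _ := mul_le_mul_of_nonneg_left hgK hRR.le
      rw [div_mul_eq_mul_div, le_div_iff₀ (by positivity)]
      have e1 : H ^ (3 * (dg j : ℝ)) = (H ^ dg j) ^ 3 := by
        rw [← pow_mul, ← Real.rpow_natCast]
        congr 1
        push_cast; ring
      rw [e1]
      calc (H ^ dg j) ^ 3 * c1 ^ 3 = (c1 * H ^ dg j) ^ 3 := by ring
        _ ≤ _ := h6
    have hD0 : (0 : ℝ) < 9 * (dg j : ℝ) := by linarith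
    have hH3 : H ^ (1 / 3 : ℝ) ≤ (R / c1 ^ 3 * K) ^ (1 / (9 * (dg j : ℝ))) := by
      have e1 : H ^ (1 / 3 : ℝ) = (H ^ (3 * (dg j : ℝ))) ^ (1 / (9 * (dg j : ℝ))) := by
        rw [← Real.rpow_mul hH0.le]
        congr 1
        field_simp
        ring
      rw [e1]
      exact Real.rpow_le_rpow (by positivity) hHb (by positivity)
    have ha3 : |(a : ℝ)| ≤ K ^ (1 / 3 : ℝ) * H ^ (1 / 3 : ℝ) := by
      have h6 : |(a : ℝ)| ^ 3 ≤ K * H := by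
        rw [hA, ← hHX']
        exact mul_le_mul_of_nonneg_right hgK hH0.le
      rw [← Real.mul_rpow hK0.le hH0.le]
      have e1 : |(a : ℝ)| = (|(a : ℝ)| ^ 3) ^ (1 / 3 : ℝ) := by
        rw [← Real.rpow_natCast, ← Real.rpow_mul ha0]
        norm_num
      rw [e1]
      exact Real.rpow_le_rpow (by positivity) h6 (by norm_num)
    have hfin : |(x : ℝ)| ≤ B2 * K ^ (1 / 3 + 1 / (9 * (dg j : ℝ))) := by
      calc |(x : ℝ)| ≤ C / c1 * |(a : ℝ)| := hx2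
        _ ≤ C / c1 * (K ^ (1 / 3 : ℝ) * H ^ (1 / 3 : ℝ)) :=
            mul_le_mul_of_nonneg_left ha3 (by positivity)
        _ ≤ C / c1 * (K ^ (1 / 3 : ℝ) * (R / c1 ^ 3 * K) ^ (1 / (9 * (dg j : ℝ)))) := by gcongr
        _ = B2 * K ^ (1 / 3 + 1 / (9 * (dg j : ℝ))) := by
            rw [hB2, Real.mul_rpow (by positivity) hK0.le, Real.rpow_add hK0]
            ring
    refine hfin.trans ?_
    have hexp : 1 / 3 + 1 / (9 * (dg j : ℝ)) ≤ 1 / 3 + 4 / ((4 : ℝ) ^ j - 12) + ε := by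
      have h6 : 1 / (9 * (dg j : ℝ)) ≤ 4 / ((4 : ℝ) ^ j - 12) := by
        rw [h4j, div_le_div_iff₀ hD0 (by linarith)]
        linarith
      linarith
    apply mul_le_mul ((le_max_right _ _).trans (le_max_right _ _))
      (Real.rpow_le_rpow_of_exponent_le hK hexp) (by positivity) (by positivity)
  · -- `X` and `Y` are comparable
    have hHM : H ≤ M * |(Y : ℝ)| := by
      rw [hH]
      exact max_le hcase (by nlinarith)
    have hHb : H ^ (3 * e + 1) ≤ R * M / c ^ 3 * K := by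
      have h6 : (c * H ^ e) ^ 3 ≤ R * g := (pow_le_pow_left₀ (by positivity) h4 3).trans h5
      have e1 : H ^ (3 * e + 1) = (H ^ e) ^ 3 * H := by
        rw [Real.rpow_add hH0, Real.rpow_one, mul_comm 3 e, Real.rpow_mul hH0.le]
        norm_cast
      rw [e1, hKg, div_mul_eq_mul_div, le_div_iff₀ (by positivity)]
      calc (H ^ e) ^ 3 * H * c ^ 3 = (c * H ^ e) ^ 3 * H := by ring
        _ ≤ (R * g) * (M * |(Y : ℝ)|) := mul_le_mul h6 hHM hH0.le (by positivity)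
        _ = _ := by ring
    have hH4 : H ^ (4 + ε0) ≤ (R * M / c ^ 3 * K) ^ τ := by
      have e1 : H ^ (4 + ε0) = (H ^ (3 * e + 1)) ^ τ := by
        rw [← Real.rpow_mul hH0.le]
        congr 1
        rw [hτ]
        field_simp
      rw [e1]
      exact Real.rpow_le_rpow (by positivity) hHb hτ0.le
    have ha3 : |(a : ℝ)| ≤ (M * K) ^ (1 / 3 : ℝ) := by
      have h6 : |(a : ℝ)| ^ 3 ≤ M * K := by
        rw [hA, hKg]
        calc (g : ℝ) * |(X : ℝ)| ≤ g * (M * |(Y : ℝ)|) := mul_le_mul_of_nonneg_left hcase hgR.le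
          _ = _ := by ring
      have e1 : |(a : ℝ)| = (|(a : ℝ)| ^ 3) ^ (1 / 3 : ℝ) := by
        rw [← Real.rpow_natCast, ← Real.rpow_mul ha0]
        norm_num
      rw [e1]
      exact Real.rpow_le_rpow (by positivity) h6 (by norm_num)
    have hx2 : |(x : ℝ)| ≤ C / c * (|(a : ℝ)| * H ^ (4 + ε0)) := by
      rw [div_mul_eq_mul_div, le_div_iff₀ hc]
      have hHe : 0 < H ^ e := by positivity
      have e1 : H ^ dg j = H ^ (4 + ε0) * H ^ e := by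
        rw [← Real.rpow_add hH0, ← Real.rpow_natCast]
        congr 1
        rw [he]; ring
      have h6 : (|(x : ℝ)| * c) * H ^ e ≤ (C * (|(a : ℝ)| * H ^ (4 + ε0))) * H ^ e := by
        calc (|(x : ℝ)| * c) * H ^ e = |(x : ℝ)| * (c * H ^ e) := by ring
          _ ≤ |(x : ℝ)| * |(G : ℝ)| := mul_le_mul_of_nonneg_left h4 hx0
          _ = |(a : ℝ)| * |(F : ℝ)| := hxG
          _ ≤ |(a : ℝ)| * (C * H ^ dg j) := mul_le_mul_of_nonneg_left hF1 ha0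
          _ = _ := by rw [e1]; ring
      exact le_of_mul_le_mul_right h6 hHe
    have hfin : |(x : ℝ)| ≤ B1 * K ^ (1 / 3 + τ) := by
      calc |(x : ℝ)| ≤ C / c * (|(a : ℝ)| * H ^ (4 + ε0)) := hx2
        _ ≤ C / c * ((M * K) ^ (1 / 3 : ℝ) * (R * M / c ^ 3 * K) ^ τ) := by gcongr
        _ = B1 * K ^ (1 / 3 + τ) := by
            rw [hB1, Real.mul_rpow (by positivity) hK0.le, Real.mul_rpow (by positivity) hK0.le,
              Real.rpow_add hK0]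
            ring
    refine hfin.trans ?_
    apply mul_le_mul ((le_max_left _ _).trans (le_max_right _ _))
      (Real.rpow_le_rpow_of_exponent_le hK hτle) (by positivity) (by positivity)

end Pool.Agent.K7.H71.Hall
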